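import Pool.Agent.N65.TL.Lau
import Pool.Agent.TH577.UA.Final
set_option autoImplicit false

/-!
The coordinate rings of the fibrations `W(z) = Φ(x)` and of their open parts `Φ ≠ 0`, units and
evaluation at complex points.
-/

namespace Pool.Agent.N65.TL

open Pool.Agent.TH826.MK

section ring

variable {K : Type*} [Field K] {s d : ℕ}

variable (W : LP K (s + 1)) (Φ : MvPolynomial (Fin (d + 1)) K)

theorem fmk_feqn : fmk W Φ (feqn W Φ) = 0 :=
  Ideal.Quotient.eq_zero_iff_mem.2 (Ideal.subset_span (Set.mem_singleton (feqn W Φ)))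

variable {Φ} in
theorem coe_fdiv {p : MvPolynomial (Fin (d + 1)) K} (h : p ∣ Φ) :
    (fdiv W h : FOpen W Φ) = fx W Φ p := rfl

theorem mon_zlau {R : Type*} [CommRing R] {n : ℕ} (m : Fin n → ℤ) :
    ((mon (zlau (R := R)) m : (LP R n)ˣ) : LP R n) = AddMonoidAlgebra.single m 1 := by
  classical
  have h1 : ∀ (i : Fin n) (k : ℤ), ((zlau (R := R) i ^ k : (LP R n)ˣ) : LP R n) =
      AddMonoidAlgebra.single (k • (Pi.single i (1 : ℤ) : Fin n → ℤ)) 1 := by
    intro i k
    obtain ⟨p, rfl | rfl⟩ := k.eq_nat_or_neg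
    · rw [zpow_natCast, Units.val_pow_eq_pow_val]
      show (AddMonoidAlgebra.single (Pi.single i (1 : ℤ) : Fin n → ℤ) (1 : R)) ^ p = _
      rw [AddMonoidAlgebra.single_pow, one_pow, natCast_zsmul]
    · rw [zpow_neg, zpow_natCast, ← inv_pow, Units.val_pow_eq_pow_val]
      show (AddMonoidAlgebra.single (-Pi.single i (1 : ℤ) : Fin n → ℤ) (1 : R)) ^ p = _
      rw [AddMonoidAlgebra.single_pow, one_pow, neg_smul, natCast_zsmul, smul_neg]
  unfold mon
  rw [Units.coe_prod]
  simp only [h1]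
  have h2 : ∀ t : Finset (Fin n), ∏ i ∈ t, AddMonoidAlgebra.single (m i • (Pi.single i (1 : ℤ) : Fin n → ℤ))
      (1 : R) = AddMonoidAlgebra.single (∑ i ∈ t, m i • (Pi.single i (1 : ℤ) : Fin n → ℤ)) 1 := by
    intro t
    induction t using Finset.induction_on with
    | empty => rfl
    | insert j t hj ih =>
      rw [Finset.prod_insert hj, Finset.sum_insert hj, ih, AddMonoidAlgebra.single_mul_single,
        one_mul]
  rw [h2]
  congr 1
  funext j
  rw [Finset.sum_apply, Finset.sum_eq_single j]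
  · simp
  · intro i _ hi
    rw [Pi.smul_apply, Pi.single_eq_of_ne (Ne.symm hi), smul_zero]
  · intro h
    exact absurd (Finset.mem_univ j) h

/-- A ring homomorphism from the Laurent polynomials is an evaluation. -/
theorem hom_eq_lev {R S : Type*} [CommRing R] [CommRing S] {n : ℕ} (f : LP R n →+* S)
    (P : LP R n) :
    f P = lev (f.comp AddMonoidAlgebra.singleZeroRingHom)
      (fun i => Units.map (f : LP R n →* S) (zlau i)) P := by
  rw [lev_eq]
  conv_lhs => rw [← AddMonoidAlgebra.sum_coeff_single P]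
  unfold Finsupp.sum
  rw [map_sum]
  refine Finset.sum_congr rfl fun m _ => ?_
  have h1 : (AddMonoidAlgebra.single m (P.coeff m) : LP R n) =
      AddMonoidAlgebra.single 0 (P.coeff m) * AddMonoidAlgebra.single m 1 := by
    rw [AddMonoidAlgebra.single_mul_single, zero_add, mul_one]
  rw [h1, map_mul]
  congr 1
  have h2 : mon (fun i => Units.map (f : LP R n →* S) (zlau i)) m =
      Units.map (f : LP R n →* S) (mon zlau m) := by
    unfold mon
    rw [map_prod]
    simp only [map_zpow]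
  rw [h2, Units.coe_map, mon_zlau]
  rfl

theorem lev_map {R R' S : Type*} [CommRing R] [CommRing R'] [CommRing S] {n : ℕ} (φ : R' →+* S)
    (z : Fin n → Sˣ) (ψ : R →+* R') (P : LP R n) :
    lev φ z (AddMonoidAlgebra.mapRingHom (Fin n → ℤ) ψ P) = lev (φ.comp ψ) z P := by
  have h : (lev φ z).comp (AddMonoidAlgebra.mapRingHom (Fin n → ℤ) ψ) = lev (φ.comp ψ) z := by
    refine AddMonoidAlgebra.ringHom_ext (fun r => ?_) fun m => ?_
    · rw [RingHom.comp_apply, AddMonoidAlgebra.mapRingHom_single, lev_single, lev_single]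
      rfl
    · rw [RingHom.comp_apply, AddMonoidAlgebra.mapRingHom_single, lev_single, lev_single]
      simp
  exact congrArg (fun f : LP R n →+* S => f P) h

/-- the equation on the open part -/
theorem flau_eq {L : Type*} [CommRing L] (f : FOpen W Φ →+* L) :
    lev (f.comp (fcst W Φ)) (fun i => Units.map (f : FOpen W Φ →* L) (fz W Φ i)) W =
      f (fx W Φ Φ) := by
  have h0 : flau W Φ (feqn W Φ) = 0 := by
    unfold flau
    rw [RingHom.comp_apply, fmk_feqn, map_zero]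
  have h2 : flau W Φ (tlau d W) = flau W Φ (tpol s Φ) := by
    rw [← sub_eq_zero, ← map_sub]
    exact h0
  have h1 : f (flau W Φ (tlau d W)) = f (fx W Φ Φ) := congrArg f h2
  rw [← h1]
  have h3 : f (flau W Φ (tlau d W)) = _ := hom_eq_lev (R := MvPolynomial (Fin (d + 1)) K)
    (f.comp (flau W Φ)) (AddMonoidAlgebra.mapRingHom (Fin (s + 1) → ℤ) MvPolynomial.C W)
  rw [h3, lev_map]
  rfl

end ring

section points

variable {K : Type*} [Field K] {s d : ℕ} {W : LP K (s + 1)} {Φ : MvPolynomial (Fin (d + 1)) K}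
  {σ : K →+* ℂ}

/-- The complex points of the open part. -/
structure FPt (σ : K →+* ℂ) (W : LP K (s + 1)) (Φ : MvPolynomial (Fin (d + 1)) K)
    (x : Fin (d + 1) → ℂ) (z : Fin (s + 1) → ℂ) : Prop where
  ne : ∀ i, z i ≠ 0
  eq : ∑ m ∈ W.coeff.support, σ (W.coeff m) * ∏ i, z i ^ (m i) = MvPolynomial.eval₂ σ x Φ
  phi : MvPolynomial.eval₂ σ x Φ ≠ 0

variable {x : Fin (d + 1) → ℂ} {z : Fin (s + 1) → ℂ}

/-- evaluation on the Laurent polynomials -/
noncomputable def FPt.ev0 (h : FPt σ W Φ x z) : TRing K s d →+* ℂ :=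
  lev (MvPolynomial.eval₂Hom σ x) fun i => Units.mk0 (z i) (h.ne i)

theorem FPt.ev0_eq (h : FPt σ W Φ x z) (P : LP (MvPolynomial (Fin (d + 1)) K) (s + 1)) :
    h.ev0 (P : TRing K s d) = ∑ m ∈ P.coeff.support, MvPolynomial.eval₂ σ x (P.coeff m) * ∏ i, z i ^ (m i) := by
  refine (lev_eq _ _ P).trans (Finset.sum_congr rfl fun m _ => ?_)
  congr 1
  unfold mon
  rw [Units.coe_prod]
  exact Finset.prod_congr rfl fun i _ => by rw [Units.val_zpow_eq_zpow_val, Units.val_mk0]

theorem FPt.ev0_feqn (h : FPt σ W Φ x z) : h.ev0 (feqn W Φ) = 0 := by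
  have h1 : h.ev0 (tlau d W) = ∑ m ∈ W.coeff.support, σ (W.coeff m) * ∏ i, z i ^ (m i) := by
    refine (lev_map _ _ _ W).trans ((lev_eq _ _ W).trans ?_)
    refine Finset.sum_congr rfl fun m _ => ?_
    congr 1
    · simp
    · unfold mon
      rw [Units.coe_prod]
      exact Finset.prod_congr rfl fun i _ => by rw [Units.val_zpow_eq_zpow_val, Units.val_mk0]
  have h2 : h.ev0 (tpol s Φ) = MvPolynomial.eval₂ σ x Φ := by
    refine (lev_single _ _ 0 Φ).trans ?_
    rw [mon_zero, Units.val_one, mul_one]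
    rfl
  unfold feqn
  rw [map_sub, h1, h2, h.eq, sub_self]

/-- evaluation on the hypersurface -/
noncomputable def FPt.evB (h : FPt σ W Φ x z) : FRing W Φ →+* ℂ :=
  Ideal.Quotient.lift (Ideal.span {feqn W Φ}) h.ev0 (by
    intro p hp
    have hle : Ideal.span {feqn W Φ} ≤ RingHom.ker h.ev0 := by
      rw [Ideal.span_le]
      rintro q rfl
      exact h.ev0_feqn
    exact hle hp)

theorem FPt.evB_mk (h : FPt σ W Φ x z) (P : TRing K s d) : h.evB (fmk W Φ P) = h.ev0 P :=
  Ideal.Quotient.lift_mk _ _ _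

theorem FPt.ev0_tpol (h : FPt σ W Φ x z) (p : MvPolynomial (Fin (d + 1)) K) :
    h.ev0 (tpol s p) = MvPolynomial.eval₂ σ x p := by
  refine (lev_single _ _ 0 p).trans ?_
  rw [mon_zero, Units.val_one, mul_one]
  rfl

theorem FPt.isUnit (h : FPt σ W Φ x z) : IsUnit (h.evB (fPh W Φ)) := by
  unfold fPh
  rw [h.evB_mk, h.ev0_tpol]
  exact IsUnit.mk0 _ h.phi

/-- evaluation on the open part -/
noncomputable def FPt.evA (h : FPt σ W Φ x z) : FOpen W Φ →+* ℂ :=
  IsLocalization.Away.lift (S := Localization.Away (fPh W Φ)) (fPh W Φ) h.isUnit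

theorem FPt.evA_alg (h : FPt σ W Φ x z) (b : FRing W Φ) :
    h.evA (ftoO W Φ b) = h.evB b :=
  IsLocalization.Away.lift_eq (S := Localization.Away (fPh W Φ)) _ _ _

theorem FPt.evA_flau (h : FPt σ W Φ x z) (P : TRing K s d) :
    h.evA (flau W Φ P) = h.ev0 P := by
  unfold flau
  rw [RingHom.comp_apply, h.evA_alg, h.evB_mk]

theorem FPt.evA_fx (h : FPt σ W Φ x z) (p : MvPolynomial (Fin (d + 1)) K) :
    h.evA (fx W Φ p) = MvPolynomial.eval₂ σ x p := by
  unfold fx
  rw [RingHom.comp_apply, h.evA_flau, h.ev0_tpol]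

theorem FPt.evA_fcst (h : FPt σ W Φ x z) (u : K) : h.evA (fcst W Φ u) = σ u := by
  unfold fcst
  rw [RingHom.comp_apply, h.evA_fx, MvPolynomial.eval₂_C]

theorem FPt.evA_fz (h : FPt σ W Φ x z) (i : Fin (s + 1)) :
    h.evA (fz W Φ i : FOpen W Φ) = z i := by
  show h.evA (flau W Φ (tz K d i : TRing K s d)) = _
  rw [h.evA_flau]
  refine (lev_single _ _ (Pi.single i 1) 1).trans ?_
  rw [map_one, one_mul, mon_single, Units.val_mk0]

theorem FPt.congr {x' : Fin (d + 1) → ℂ} {z' : Fin (s + 1) → ℂ} (h : FPt σ W Φ x z)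
    (h' : FPt σ W Φ x' z') (hx : x = x') (hz : z = z') : h.evA = h'.evA := by
  subst hx
  subst hz
  rfl

variable {D : ℕ} {X : (Fin D → ℝ) → Fin (d + 1) → ℂ} {Z : Fin (s + 1) → (Fin D → ℝ) → ℂ}

theorem contDiff_zpow' {g : (Fin D → ℝ) → ℂ} (hg : Good g) (m : ℤ) :
    ContDiff ℝ 2 fun θ => g θ ^ m := by
  obtain ⟨n, rfl | rfl⟩ := m.eq_nat_or_neg
  · simp only [zpow_natCast]
    exact hg.smooth.pow n
  · simp only [zpow_neg, zpow_natCast]
    exact (hg.smooth.pow n).inv fun θ => pow_ne_zero n (hg.ne_zero θ)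

theorem contDiff_evA (hX : ContDiff ℝ 2 X) (hZ : ∀ i, Good (Z i))
    (h : ∀ θ, FPt σ W Φ (X θ) fun i => Z i θ) (b : FOpen W Φ) :
    ContDiff ℝ 2 fun θ => (h θ).evA b := by
  have hxk : ∀ k, ContDiff ℝ 2 fun θ => X θ k := fun k => contDiff_pi.1 hX k
  have hmv : ∀ p : MvPolynomial (Fin (d + 1)) K,
      ContDiff ℝ 2 fun θ => MvPolynomial.eval₂ σ (X θ) p := by
    intro p
    induction p using MvPolynomial.induction_on with
    | C c => simpa using contDiff_const
    | add p q hp hq => simpa using hp.add hq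
    | mul_X p k hp => simpa using hp.mul (hxk k)
  have hB : ∀ b : FRing W Φ, ContDiff ℝ 2 fun θ => (h θ).evB b := by
    intro b
    obtain ⟨P, rfl⟩ : ∃ P : LP (MvPolynomial (Fin (d + 1)) K) (s + 1),
      fmk W Φ (P : TRing K s d) = b := Ideal.Quotient.mk_surjective b
    have e : (fun θ => (h θ).evB (fmk W Φ (P : TRing K s d))) = fun θ =>
        ∑ m ∈ P.coeff.support, MvPolynomial.eval₂ σ (X θ) (P.coeff m) *
          ∏ i, Z i θ ^ (m i) := by
      funext θ
      exact ((h θ).evB_mk _).trans ((h θ).ev0_eq P)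
    rw [e]
    exact ContDiff.sum fun m _ => (hmv _).mul (contDiff_prod fun i _ => contDiff_zpow' (hZ i) _)
  obtain ⟨k, a, hk⟩ : ∃ (k : ℕ) (a : FRing W Φ), b * ftoO W Φ (fPh W Φ) ^ k = ftoO W Φ a :=
    IsLocalization.Away.surj (S := Localization.Away (fPh W Φ)) (fPh W Φ) b
  have hne : ∀ θ, (h θ).evB (fPh W Φ) ≠ 0 := fun θ => (h θ).isUnit.ne_zero
  have e : (fun θ => (h θ).evA b) = fun θ => (h θ).evB a * (((h θ).evB (fPh W Φ)) ^ k)⁻¹ := by
    funext θ
    have h1 := congrArg (h θ).evA hk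
    rw [map_mul, (h θ).evA_alg, map_pow, (h θ).evA_alg] at h1
    rw [← h1, mul_assoc, mul_inv_cancel₀ (pow_ne_zero _ (hne θ)), mul_one]
  rw [e]
  exact (hB a).mul (((hB _).pow k).inv fun θ => pow_ne_zero _ (hne θ))

/-- a torus in the open part -/
noncomputable def mkF (hX : ContDiff ℝ 2 X) (hZ : ∀ i, Good (Z i))
    (h : ∀ θ, FPt σ W Φ (X θ) fun i => Z i θ) (hXp : ∀ θ j, X (θ + Pi.single j 1) = X θ)
    (hZp : ∀ i, Per (Z i)) : Torus (FOpen W Φ) D where
  e θ := (h θ).evA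
  smooth b := contDiff_evA hX hZ h b
  periodic θ j := FPt.congr _ _ (hXp θ j) (funext fun i => hZp i θ j)

end points

end Pool.Agent.N65.TL
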