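import Pool.Agent.TH577.UA.Mil
set_option autoImplicit false

/-!
Symbols whose entries are monomials: the symbol of the monomials with the exponents `M_i` is
`det M` times the symbol of the variables.
-/

namespace Pool.Agent.N65.TL

open scoped WithZero

open Pool.Agent.TH826.MK

section mon

variable {G : Type*} [CommGroup G] {n : ℕ}

/-- The monomial `z_0 ^ m_0 ... z_{n-1} ^ m_{n-1}`. -/
def mon (z : Fin n → G) (m : Fin n → ℤ) : G := ∏ i, z i ^ m i

theorem mon_zero (z : Fin n → G) : mon z 0 = 1 := by
  unfold mon
  simp

theorem mon_add (z : Fin n → G) (m m' : Fin n → ℤ) : mon z (m + m') = mon z m * mon z m' := by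
  unfold mon
  rw [← Finset.prod_mul_distrib]
  exact Finset.prod_congr rfl fun i _ => by rw [Pi.add_apply, zpow_add]

theorem mon_neg (z : Fin n → G) (m : Fin n → ℤ) : mon z (-m) = (mon z m)⁻¹ := by
  unfold mon
  rw [← Finset.prod_inv_distrib]
  exact Finset.prod_congr rfl fun i _ => by rw [Pi.neg_apply, zpow_neg]

theorem mon_sub (z : Fin n → G) (m m' : Fin n → ℤ) : mon z (m - m') = mon z m / mon z m' := by
  rw [sub_eq_add_neg, mon_add, mon_neg, div_eq_mul_inv]

theorem mon_smul (z : Fin n → G) (c : ℤ) (m : Fin n → ℤ) : mon z (c • m) = (mon z m) ^ c := by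
  unfold mon
  rw [← Finset.prod_zpow]
  exact Finset.prod_congr rfl fun i _ => by
    rw [Pi.smul_apply, smul_eq_mul, mul_comm, zpow_mul]

theorem mon_single (z : Fin n → G) (i : Fin n) : mon z (Pi.single i 1) = z i := by
  unfold mon
  rw [Finset.prod_eq_single i]
  · rw [Pi.single_eq_same, zpow_one]
  · intro j _ hj
    rw [Pi.single_eq_of_ne hj, zpow_zero]
  · intro h
    exact absurd (Finset.mem_univ i) h

end mon

section alt

variable {L : Type*} [Field L] {n N : ℕ}

theorem extend_update {α : Type*} {p : Fin n → Fin N} (hp : Function.Injective p) (x : Fin n → α)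
    (a : Fin N → α) (i : Fin n) (y : α) :
    Function.extend p (Function.update x i y) a =
      Function.update (Function.extend p x a) (p i) y := by
  funext l
  by_cases hl : ∃ j, p j = l
  · obtain ⟨j, rfl⟩ := hl
    rw [hp.extend_apply]
    by_cases hj : j = i
    · subst hj
      rw [Function.update_self, Function.update_self]
    · rw [Function.update_of_ne hj, Function.update_of_ne (fun h => hj (hp h)), hp.extend_apply]
  · have h1 : l ≠ p i := fun h => hl ⟨i, h.symm⟩
    rw [Function.update_of_ne h1, Function.extend_apply' _ _ _ hl,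
      Function.extend_apply' _ _ _ hl]

/-- The symbol of monomials, as an alternating map of the exponents. -/
noncomputable def altS (z : Fin n → Lˣ) {p : Fin n → Fin N} (hp : Function.Injective p)
    (a : Fin N → Lˣ) : (Fin n → ℤ) [⋀^Fin n]→ₗ[ℤ] KQ L N where
  toFun M := symb (Function.extend p (fun i => mon z (M i)) a)
  map_update_add' := by
    intro hdec M i x y
    obtain rfl : hdec = fun a b => instDecidableEqFin n a b := Subsingleton.elim _ _
    have e : ∀ u, (fun j => mon z (Function.update M i u j)) =
        Function.update (fun j => mon z (M j)) i (mon z u) := by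
      intro u
      funext j
      by_cases hj : j = i
      · subst hj
        rw [Function.update_self, Function.update_self]
      · rw [Function.update_of_ne hj, Function.update_of_ne hj]
    rw [e, e, e, mon_add, extend_update hp, extend_update hp, extend_update hp,
      symb_update_mul]
  map_update_smul' := by
    intro hdec M i c x
    obtain rfl : hdec = fun a b => instDecidableEqFin n a b := Subsingleton.elim _ _
    have e : ∀ u, (fun j => mon z (Function.update M i u j)) =
        Function.update (fun j => mon z (M j)) i (mon z u) := by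
      intro u
      funext j
      by_cases hj : j = i
      · subst hj
        rw [Function.update_self, Function.update_self]
      · rw [Function.update_of_ne hj, Function.update_of_ne hj]
    rw [e, e, mon_smul, extend_update hp, extend_update hp, symb_update_zpow,
      Int.cast_smul_eq_zsmul]
  map_eq_zero_of_eq' := by
    intro M i j hM hij
    refine Pool.Agent.TH826.SX.symb_self (Function.extend p (fun i => mon z (M i)) a)
      (i := p i) (j := p j) (fun h => hij (hp h)) ?_
    rw [hp.extend_apply, hp.extend_apply, hM]

theorem altS_apply (z : Fin n → Lˣ) {p : Fin n → Fin N} (hp : Function.Injective p)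
    (a : Fin N → Lˣ) (M : Fin n → Fin n → ℤ) :
    altS z hp a M = symb (Function.extend p (fun i => mon z (M i)) a) := rfl

/-- The symbol of the monomials with the exponents `M_i` is `det M` times the symbol of the
variables. -/
theorem symb_mon (a : Fin N → Lˣ) {p : Fin n → Fin N} (hp : Function.Injective p)
    (M : Fin n → Fin n → ℤ) :
    symb (Function.extend p (fun i => mon (fun j => a (p j)) (M i)) a) =
      (Matrix.of M).det • symb a := by
  have h : altS (fun j => a (p j)) hp a =
      (LinearMap.toSpanSingleton ℤ (KQ L N) (symb a)).compAlternatingMap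
        Matrix.detRowAlternating := by
    refine Module.Basis.ext_alternating (Pi.basisFun ℤ (Fin n)) fun v hv => ?_
    obtain ⟨σ, hσ⟩ : ∃ σ : Equiv.Perm (Fin n), ⇑σ = v :=
      ⟨Equiv.ofBijective v (Function.Injective.bijective_of_finite hv), rfl⟩
    subst hσ
    have h1 : (fun i => Pi.basisFun ℤ (Fin n) (σ i)) = (Pi.basisFun ℤ (Fin n)) ∘ σ := rfl
    rw [h1, AlternatingMap.map_perm, AlternatingMap.map_perm]
    congr 1
    rw [altS_apply]
    have h2 : Function.extend p (fun i => mon (fun j => a (p j)) ((Pi.basisFun ℤ (Fin n)) i)) a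
        = a := by
      funext l
      by_cases hl : ∃ j, p j = l
      · obtain ⟨j, rfl⟩ := hl
        rw [hp.extend_apply, Pi.basisFun_apply, mon_single]
      · rw [Function.extend_apply' _ _ _ hl]
    rw [h2]
    show symb a = (Matrix.detRowAlternating fun i => (Pi.basisFun ℤ (Fin n)) i) • symb a
    have h3 : (Matrix.detRowAlternating fun i => (Pi.basisFun ℤ (Fin n)) i) = (1 : ℤ) := by
      have h4 : (Matrix.of fun i => (Pi.basisFun ℤ (Fin n)) i) = (1 : Matrix (Fin n) (Fin n) ℤ) := by
        ext i j
        rw [Matrix.of_apply, Pi.basisFun_apply, Matrix.one_apply, Pi.single_apply]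
        by_cases hij : i = j
        · rw [if_pos hij, if_pos hij.symm]
        · rw [if_neg hij, if_neg (Ne.symm hij)]
      have h5 : Matrix.det (Matrix.of fun i => (Pi.basisFun ℤ (Fin n)) i) = 1 := by
        rw [h4, Matrix.det_one]
      exact h5
    rw [h3, one_smul]
  have h6 := congrArg (fun f => f M) h
  exact h6

/-- Roots of unity do not matter. -/
theorem symb_tors (a b : Fin N → Lˣ) (h : ∀ l, ∃ k : ℕ, k ≠ 0 ∧ (a l / b l) ^ k = 1) :
    symb a = symb b := by
  classical
  have key : ∀ s : Finset (Fin N), symb (fun l => if l ∈ s then b l else a l) = symb a := by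
    intro s
    induction s using Finset.induction_on with
    | empty => simp
    | insert j s hj ih =>
      rw [← ih]
      set c : Fin N → Lˣ := fun l => if l ∈ s then b l else a l with hc
      have hcj : c j = a j := by simp [hc, hj]
      have e : (fun l => if l ∈ insert j s then b l else a l) = Function.update c j (b j) := by
        funext l
        by_cases hl : l = j
        · subst hl; simp
        · simp [Function.update_of_ne hl, hl, hc]
      have e2 : c = Function.update c j ((a j / b j) * b j) := by
        rw [div_mul_cancel, ← hcj, Function.update_eq_self]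
      obtain ⟨k, hk, hk1⟩ := h j
      have h0 : symb (Function.update c j (a j / b j)) = 0 := by
        have h1 := symb_update_zpow c j (a j / b j) (k : ℤ)
        have h2 := symb_update_zpow c j (1 : Lˣ) 0
        rw [zpow_natCast, hk1] at h1
        rw [zpow_zero, Int.cast_zero, zero_smul] at h2
        rw [h2] at h1
        have hk' : (((k : ℤ)) : ℚ) ≠ 0 := by exact_mod_cast hk
        exact ((smul_eq_zero.1 h1.symm).resolve_left hk')
      conv_rhs => rw [e2, symb_update_mul, h0, zero_add]
      rw [e]
  have h2 := key Finset.univ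
  simp only [Finset.mem_univ, if_true] at h2
  exact h2.symm

end alt

section complete

/-- A linearly independent family of integral vectors can be completed to the rows of a matrix with
nonzero determinant. -/
theorem exists_complete {n : ℕ} {ι : Type*} [Fintype ι] (q : ι → Fin n → ℤ)
    (hq : LinearIndependent ℤ q) :
    ∃ (e : ι → Fin n) (M : Fin n → Fin n → ℤ), Function.Injective e ∧ (∀ i, M (e i) = q i) ∧
      (Matrix.of M).det ≠ 0 := by
  classical
  have hqQ : LinearIndependent ℚ fun i => (fun j => (q i j : ℚ) : Fin n → ℚ) := by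
    rw [Fintype.linearIndependent_iff]
    intro g hg
    -- clear denominators
    obtain ⟨D, hD⟩ := IsLocalization.exist_integer_multiples_of_finset (nonZeroDivisors ℤ)
      (Finset.univ.image g)
    choose! c hc using hD
    have hD0 : ((D : ℤ) : ℚ) ≠ 0 := by
      exact_mod_cast nonZeroDivisors.coe_ne_zero D
    have hci : ∀ i, ((c (g i) : ℤ) : ℚ) = (D : ℤ) * g i := by
      intro i
      have h1 := hc (g i) (Finset.mem_image_of_mem g (Finset.mem_univ i))
      rw [zsmul_eq_mul] at h1
      exact h1
    have h2 : ∑ i, c (g i) • q i = 0 := by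
      funext j
      have h3 := congrFun hg j
      simp only [Finset.sum_apply, Pi.smul_apply, smul_eq_mul, Pi.zero_apply] at h3 ⊢
      have h4 : ((∑ i, c (g i) * q i j : ℤ) : ℚ) = 0 := by
        push_cast
        simp only [hci]
        have h5 : ∀ i, ((D : ℤ) : ℚ) * g i * (q i j : ℚ) = ((D : ℤ) : ℚ) * (g i * (q i j : ℚ)) :=
          fun i => by ring
        simp only [h5]
        rw [← Finset.mul_sum, h3, mul_zero]
      exact_mod_cast h4
    have h5 := Fintype.linearIndependent_iff.1 hq _ h2
    intro i
    have h6 := hci i
    rw [h5 i, Int.cast_zero] at h6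
    exact (mul_eq_zero.1 h6.symm).resolve_left hD0
  set B := Module.Basis.extend hqQ.linearIndepOn_id with hB
  set E := B.indexEquiv (Pi.basisFun ℚ (Fin n)) with hE
  set B' := B.reindex E with hB'
  have hint : ∀ i : Fin n, ∃ (D : ℤ) (w : Fin n → ℤ), D ≠ 0 ∧ ∀ j, (w j : ℚ) = D * B' i j := by
    intro i
    obtain ⟨D, hD⟩ := IsLocalization.exist_integer_multiples_of_finset (nonZeroDivisors ℤ)
      (Finset.univ.image (B' i))
    choose! c hc using hD
    refine ⟨D, fun j => c (B' i j), nonZeroDivisors.coe_ne_zero D, fun j => ?_⟩
    have h1 := hc (B' i j) (Finset.mem_image_of_mem _ (Finset.mem_univ j))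
    rw [zsmul_eq_mul] at h1
    exact h1
  choose D w hD hw using hint
  have hsub : ∀ i, (fun j => (q i j : ℚ)) ∈ hqQ.linearIndepOn_id.extend
      (Set.subset_univ (Set.range fun i => (fun j => (q i j : ℚ) : Fin n → ℚ))) := fun i =>
    Module.Basis.subset_extend hqQ.linearIndepOn_id (Set.mem_range_self i)
  set e : ι → Fin n := fun i => E ⟨fun j => (q i j : ℚ), hsub i⟩ with he
  have hei : Function.Injective e := by
    intro i j h
    have h1 := E.injective h
    exact hqQ.injective (congrArg Subtype.val h1)
  have hBe : ∀ i j, B' (e i) j = q i j := by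
    intro i j
    have h1 : B' (e i) = B ⟨fun j => (q i j : ℚ), hsub i⟩ := by
      rw [hB', Module.Basis.reindex_apply, he]
      simp only [Equiv.symm_apply_apply]
    rw [h1, hB, Module.Basis.extend_apply_self]
  set M : Fin n → Fin n → ℤ := fun l => if h : ∃ i, e i = l then q h.choose else w l with hM
  have hMe : ∀ i, M (e i) = q i := by
    intro i
    have h : ∃ i', e i' = e i := ⟨i, rfl⟩
    simp only [hM]
    rw [dif_pos h]
    congr 1
    exact hei h.choose_spec
  -- the rows are nonzero multiples of the basis
  have hrow : ∀ l, ∃ c : ℚ, c ≠ 0 ∧ ∀ j, (M l j : ℚ) = c * B' l j := by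
    intro l
    by_cases h : ∃ i, e i = l
    · obtain ⟨i, rfl⟩ := h
      refine ⟨1, one_ne_zero, fun j => ?_⟩
      rw [hMe, hBe, one_mul]
    · refine ⟨D l, by exact_mod_cast hD l, fun j => ?_⟩
      simp only [hM]
      rw [dif_neg h]
      exact hw l j
  choose c hc0 hc using hrow
  refine ⟨e, M, hei, hMe, ?_⟩
  intro h0
  have h1 : ((Matrix.of M).map (Int.cast : ℤ → ℚ)).det = 0 := by
    have h2 := (RingHom.map_det (Int.castRingHom ℚ) (Matrix.of M)).symm
    rw [h0, map_zero] at h2
    exact h2
  have h2 : (Matrix.of M).map (Int.cast : ℤ → ℚ) =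
      Matrix.of fun l j => c l * (Matrix.of fun l j => B' l j) l j := by
    ext l j
    rw [Matrix.map_apply, Matrix.of_apply, Matrix.of_apply, Matrix.of_apply, hc]
  rw [h2, Matrix.det_mul_column] at h1
  rcases mul_eq_zero.1 h1 with h3 | h3
  · exact (Finset.prod_ne_zero_iff.2 fun l _ => hc0 l) h3
  · have h4 : LinearIndependent ℚ (fun l => (Matrix.of fun l j => B' l j).row l) := by
      have h5 : (fun l => (Matrix.of fun l j => B' l j).row l) = fun l => B' l := by
        funext l j
        rfl
      rw [h5]
      exact B'.linearIndependent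
    have h5 := (Matrix.linearIndependent_rows_iff_isUnit).1 h4
    rw [Matrix.isUnit_iff_isUnit_det] at h5
    exact h5.ne_zero h3

end complete

section unit

variable {L : Type*} [Field L] {n N : ℕ}

/-- If monomials with independent exponents, multiplied by roots of unity, are integral and their
sum is congruent to `-1`, then the symbol lies in the unit part. -/
theorem mem_unitPart_of_indep (v : Valuation L ℤᵐ⁰) (a : Fin N → Lˣ) {p : Fin n → Fin N}
    (hp : Function.Injective p) {ι : Type*} [Fintype ι] (q : ι → Fin n → ℤ)
    (hq : LinearIndependent ℤ q) (ε : ι → Lˣ) (hε : ∀ i, ∃ k : ℕ, k ≠ 0 ∧ ε i ^ k = 1)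
    (h1 : ∀ i, v ((ε i * mon (fun j => a (p j)) (q i) : Lˣ) : L) ≤ 1)
    (h : v (1 + ∑ i, ((ε i * mon (fun j => a (p j)) (q i) : Lˣ) : L)) < 1) :
    symb a ∈ unitPart v N := by
  classical
  obtain ⟨e, M, he, hM, hdet⟩ := exists_complete q hq
  set b : Fin N → Lˣ := Function.extend p (fun i => mon (fun j => a (p j)) (M i)) a with hb
  have hbs : symb b = (Matrix.of M).det • symb a := symb_mon a hp M
  have hpe : Function.Injective (fun i => p (e i)) := hp.comp he
  set c : Fin N → Lˣ := Function.extend (fun i => p (e i))
    (fun i => ε i * mon (fun j => a (p j)) (q i)) b with hc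
  have hce : ∀ i, c (p (e i)) = ε i * mon (fun j => a (p j)) (q i) := by
    intro i
    have h2 := hpe.extend_apply (fun i => ε i * mon (fun j => a (p j)) (q i)) b i
    exact h2
  have hbe : ∀ i, b (p (e i)) = mon (fun j => a (p j)) (q i) := by
    intro i
    rw [hb, hp.extend_apply, hM]
  have hcb : symb c = symb b := by
    refine symb_tors _ _ fun l => ?_
    by_cases hl : ∃ i, p (e i) = l
    · obtain ⟨i, rfl⟩ := hl
      obtain ⟨k, hk, hk1⟩ := hε i
      refine ⟨k, hk, ?_⟩
      rw [hce, hbe, mul_div_cancel_right]
      exact hk1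
    · refine ⟨1, one_ne_zero, ?_⟩
      have h2 : c l = b l := by
        rw [hc, Function.extend_apply' _ _ _ hl]
      rw [h2, div_self', one_pow]
  have hcm : symb c ∈ unitPart v N := by
    refine Pool.Agent.TH577.UA.mem_unitPart_of_sum_on v c
      (Finset.univ.image fun i => p (e i)) (fun k hk => ?_) ?_
    · obtain ⟨i, -, rfl⟩ := Finset.mem_image.1 hk
      rw [hce]
      exact h1 i
    · rw [Finset.sum_image fun i _ j _ hij => hpe hij]
      simp only [hce]
      exact h
  rw [hcb, hbs] at hcm
  have h2 := (unitPart v N).smul_mem (((Matrix.of M).det : ℚ)⁻¹) hcm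
  rw [← Int.cast_smul_eq_zsmul ℚ, smul_smul, inv_mul_cancel₀ (by exact_mod_cast hdet),
    one_smul] at h2
  exact h2

end unit

end Pool.Agent.N65.TL
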