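import Pool.Agent.N65.TL.Defs
import Pool.Agent.N65.TL.Alt
import Pool.Agent.TH826.MK.Variety
set_option autoImplicit false

/-!
Laurent polynomials, polynomials of simplex type, and symbols at points where a divisor of a product
of polynomials of simplex type is smaller than its largest monomial.
-/

namespace Pool.Agent.N65.TL

open scoped WithZero

open Pool.Agent.TH826.MK

section defs

variable {R S : Type*} [CommRing R] [CommRing S] {n : ℕ}

/-- `m ↦ z^m` -/
noncomputable def monHom (z : Fin n → Sˣ) : Multiplicative (Fin n → ℤ) →* S where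
  toFun m := ((mon z m.toAdd : Sˣ) : S)
  map_one' := by
    rw [toAdd_one, mon_zero, Units.val_one]
  map_mul' m m' := by
    rw [toAdd_mul, mon_add, Units.val_mul]

/-- The value of a Laurent polynomial at a point with invertible coordinates. -/
noncomputable def lev (φ : R →+* S) (z : Fin n → Sˣ) : LP R n →+* S :=
  AddMonoidAlgebra.liftNCRingHom φ (monHom z) fun _ _ => mul_comm _ _

theorem lev_single (φ : R →+* S) (z : Fin n → Sˣ) (m : Fin n → ℤ) (r : R) :
    lev φ z (AddMonoidAlgebra.single m r) = φ r * ((mon z m : Sˣ) : S) :=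
  AddMonoidAlgebra.liftNCRingHom_single _ _ _ _ _

theorem lev_eq (φ : R →+* S) (z : Fin n → Sˣ) (P : LP R n) :
    lev φ z P = ∑ m ∈ P.coeff.support, φ (P.coeff m) * ((mon z m : Sˣ) : S) := by
  conv_lhs => rw [← AddMonoidAlgebra.sum_coeff_single P]
  unfold Finsupp.sum
  rw [map_sum]
  simp only [lev_single]

theorem lev_comp {S' : Type*} [CommRing S'] (φ : R →+* S) (z : Fin n → Sˣ) (ψ : S →+* S')
    (P : LP R n) :
    ψ (lev φ z P) = lev (ψ.comp φ) (fun i => Units.map (ψ : S →* S') (z i)) P := by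
  rw [lev_eq, lev_eq, map_sum]
  refine Finset.sum_congr rfl fun m _ => ?_
  rw [map_mul, RingHom.comp_apply]
  congr 1
  have h : Units.map (ψ : S →* S') (mon z m) = mon (fun i => Units.map (ψ : S →* S') (z i)) m := by
    unfold mon
    rw [map_prod]
    simp only [map_zpow]
  rw [← h]
  rfl

end defs

section gauss

variable {K : Type*} [Field K] {n : ℕ}

/-- the leading monomials of a product -/
theorem gauss (w : (Fin n → ℤ) →+ ℤ) {P Q : LP K n} (hP : P ≠ 0) (hQ : Q ≠ 0) :
    ∃ m0 m1, P.coeff m0 ≠ 0 ∧ Q.coeff m1 ≠ 0 ∧ (∀ m, P.coeff m ≠ 0 → w m ≤ w m0) ∧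
      (∀ m, Q.coeff m ≠ 0 → w m ≤ w m1) ∧ (P * Q).coeff (m0 + m1) ≠ 0 := by
  classical
  have key : ∀ P : LP K n, P ≠ 0 → ∃ m0, P.coeff m0 ≠ 0 ∧ (∀ m, P.coeff m ≠ 0 → w m ≤ w m0) ∧
      ∀ m, P.coeff m ≠ 0 → w m = w m0 → toLex m ≤ toLex m0 := by
    intro P hP
    have hne : P.coeff.support.Nonempty := by
      rw [Finsupp.support_nonempty_iff, ne_eq, AddMonoidAlgebra.coeff_eq_zero]
      exact hP
    obtain ⟨m1, hm1, h1⟩ := Finset.exists_max_image P.coeff.support w hne
    obtain ⟨m0, hm0, h0⟩ := Finset.exists_max_image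
      (P.coeff.support.filter fun m => w m = w m1) (fun m => toLex m)
      ⟨m1, Finset.mem_filter.2 ⟨hm1, rfl⟩⟩
    obtain ⟨hm0a, hm0b⟩ := Finset.mem_filter.1 hm0
    refine ⟨m0, Finsupp.mem_support_iff.1 hm0a, fun m hm => ?_, fun m hm hw => ?_⟩
    · rw [hm0b]
      exact h1 m (Finsupp.mem_support_iff.2 hm)
    · exact h0 m (Finset.mem_filter.2 ⟨Finsupp.mem_support_iff.2 hm, hw.trans hm0b⟩)
  obtain ⟨m0, a1, a2, a3⟩ := key P hP
  obtain ⟨m1, b1, b2, b3⟩ := key Q hQ
  refine ⟨m0, m1, a1, b1, a2, b2, ?_⟩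
  rw [AddMonoidAlgebra.coeff_mul_add_of_uniqueAdd]
  · exact mul_ne_zero a1 b1
  · intro m m' hm hm' he
    have c1 := a2 m (Finsupp.mem_support_iff.1 hm)
    have c2 := b2 m' (Finsupp.mem_support_iff.1 hm')
    have c3 : w m + w m' = w m0 + w m1 := by rw [← map_add, ← map_add, he]
    have c4 := a3 m (Finsupp.mem_support_iff.1 hm) (by omega)
    have c5 := b3 m' (Finsupp.mem_support_iff.1 hm') (by omega)
    have c6 : toLex m + toLex m' = toLex m0 + toLex m1 := by
      rw [← toLex_add, ← toLex_add, he]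
    obtain ⟨d1, d2⟩ := (add_eq_add_iff_eq_and_eq c4 c5).1 c6
    exact ⟨toLex.injective d1, toLex.injective d2⟩

theorem coeff_prod_le (w : (Fin n → ℤ) →+ ℤ) {ι : Type*} (G : ι → LP K n)
    (N : ι → ℤ) (h : ∀ j m, (G j).coeff m ≠ 0 → w m ≤ N j) (s : Finset ι) :
    ∀ m, (∏ j ∈ s, G j).coeff m ≠ 0 → w m ≤ ∑ j ∈ s, N j := by
  classical
  induction s using Finset.induction_on with
  | empty =>
    intro m hm
    rw [Finset.prod_empty] at hm
    rw [Finset.sum_empty]
    have h1 : m = 0 := by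
      by_contra hne
      apply hm
      rw [AddMonoidAlgebra.one_def, AddMonoidAlgebra.coeff_single,
        Finsupp.single_eq_of_ne hne]
    rw [h1, map_zero]
  | insert j s hj ih =>
    intro m hm
    rw [Finset.prod_insert hj] at hm
    obtain ⟨a, ha, b, hb, rfl⟩ := Finset.mem_add.1
      (AddMonoidAlgebra.support_coeff_mul_subset _ _ (Finsupp.mem_support_iff.2 hm))
    rw [Finset.sum_insert hj, map_add]
    exact add_le_add (h j a (Finsupp.mem_support_iff.1 ha)) (ih b (Finsupp.mem_support_iff.1 hb))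

end gauss

section tame

variable {K : Type*} [Field K] {n : ℕ}

theorem val_root {L : Type*} [Field L] (v : Valuation L ℤᵐ⁰) {x : L} {k : ℕ} (hk : k ≠ 0)
    (h : x ^ k = 1) : v x = 1 := by
  have h1 : v x ^ k = 1 := by rw [← map_pow, h, map_one]
  exact (pow_eq_one_iff_of_nonneg zero_le hk).1 h1

/-- If a divisor of a product of polynomials of simplex type is smaller than its largest monomial
at the point `z`, then the symbols which contain the entries `z` lie in the unit part. -/
theorem mem_unitPart_of_tame {L : Type*} [Field L] (φ : K →+* L) (v : Valuation L ℤᵐ⁰) {N : ℕ}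
    (a : Fin N → Lˣ) {p : Fin n → Fin N} (hp : Function.Injective p) {W : LP K n} (hW : Tame W)
    {m0 : Fin n → ℤ} (hm0 : W.coeff m0 ≠ 0)
    (hlt : v (lev φ (fun j => a (p j)) W) < v ((mon (fun j => a (p j)) m0 : Lˣ) : L)) :
    symb a ∈ unitPart v N := by
  classical
  obtain ⟨Q, r, G, hQ0, hQ, hG, hprod⟩ := hW
  set z : Fin n → Lˣ := fun j => a (p j) with hz
  -- the weights
  choose k hk using fun j => exists_ord v (z j)
  set w : (Fin n → ℤ) →+ ℤ :=
    { toFun := fun m => ∑ j, m j * k j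
      map_zero' := by simp
      map_add' := fun m m' => by
        rw [← Finset.sum_add_distrib]
        exact Finset.sum_congr rfl fun j _ => by rw [Pi.add_apply]; ring } with hw
  have hvm : ∀ m, v ((mon z m : Lˣ) : L) = WithZero.exp (w m) := by
    intro m
    have h1 : w m = ∑ j, m j * k j := rfl
    unfold mon
    rw [h1, Units.coe_prod, map_prod]
    have h2 : ∀ s : Finset (Fin n), ∏ j ∈ s, v ((z j ^ m j : Lˣ) : L) =
        WithZero.exp (∑ j ∈ s, m j * k j) := by
      intro s
      induction s using Finset.induction_on with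
      | empty => simp
      | insert j s hj ih =>
        rw [Finset.prod_insert hj, Finset.sum_insert hj, WithZero.exp_add, ih,
          Units.val_zpow_eq_zpow_val, map_zpow₀, hk, ← WithZero.exp_zsmul, smul_eq_mul]
    exact h2 Finset.univ
  have hW0 : W ≠ 0 := by
    rintro rfl
    exact hm0 rfl
  obtain ⟨m1, m2, h1, h2, h3, h4, h5⟩ := gauss w hW0 hQ0
  have hint : ∀ x : K, IsIntegral ℤ x → v (φ x) ≤ 1 := fun x hx =>
    val_le_one_of_integral v (map_isIntegral_int φ hx)
  have hQv : v (lev φ z Q) ≤ WithZero.exp (w m2) := by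
    rw [lev_eq]
    refine Valuation.map_sum_le v fun m hm => ?_
    rw [map_mul, hvm]
    calc v (φ (Q.coeff m)) * WithZero.exp (w m) ≤ 1 * WithZero.exp (w m2) :=
          mul_le_mul' (hint _ (hQ m))
            (WithZero.exp_le_exp.2 (h4 m (Finsupp.mem_support_iff.1 hm)))
      _ = _ := one_mul _
  have hWv : v (lev φ z W) < WithZero.exp (w m1) := by
    refine lt_of_lt_of_le hlt ?_
    rw [hvm]
    exact WithZero.exp_le_exp.2 (h3 m0 hm0)
  choose d m ε hm hε hGe using hG
  choose i0 hi0 using fun j : Fin r => Finite.exists_max fun i => w (m j i)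
  have hGm : ∀ j x, (G j).coeff x ≠ 0 → w x ≤ w (m j (i0 j)) := by
    intro j x hx
    rw [hGe j, AddMonoidAlgebra.coeff_sum, Finsupp.finsetSum_apply] at hx
    obtain ⟨i, -, hi⟩ := Finset.exists_ne_zero_of_sum_ne_zero hx
    rw [AddMonoidAlgebra.coeff_single] at hi
    have hxi : x = m j i := by
      by_contra hne
      exact hi (Finsupp.single_eq_of_ne hne)
    rw [hxi]
    exact hi0 j i
  have hsum := coeff_prod_le w G (fun j => w (m j (i0 j))) hGm Finset.univ (m1 + m2)
    (by rw [← hprod]; exact h5)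
  -- one of the factors is small
  obtain ⟨j, hj⟩ : ∃ j, v (lev φ z (G j)) < WithZero.exp (w (m j (i0 j))) := by
    by_contra hcon
    push Not at hcon
    have e1 : v (lev φ z W) * v (lev φ z Q) = ∏ j, v (lev φ z (G j)) := by
      rw [← map_mul, ← map_mul, hprod, map_prod, map_prod]
    have e2 : WithZero.exp (∑ j, w (m j (i0 j))) ≤ ∏ j, v (lev φ z (G j)) := by
      have h6 : ∀ s : Finset (Fin r), WithZero.exp (∑ j ∈ s, w (m j (i0 j))) ≤
          ∏ j ∈ s, v (lev φ z (G j)) := by
        intro s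
        induction s using Finset.induction_on with
        | empty => simp
        | insert j s hj ih =>
          rw [Finset.prod_insert hj, Finset.sum_insert hj, WithZero.exp_add]
          exact mul_le_mul' (hcon j) ih
      exact h6 Finset.univ
    have e3 : v (lev φ z W) * v (lev φ z Q) < WithZero.exp (w m1) * WithZero.exp (w m2) :=
      (mul_le_mul' le_rfl hQv).trans_lt (mul_lt_mul_of_pos_right hWv WithZero.exp_pos)
    rw [e1, ← WithZero.exp_add, ← map_add] at e3
    have e4 := e2.trans_lt e3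
    rw [WithZero.exp_lt_exp] at e4
    omega
  -- the relation
  have hε0 : ∀ i, ε j i ≠ 0 := by
    intro i h0
    obtain ⟨k', hk', hk1⟩ := hε j i
    rw [h0, zero_pow hk'] at hk1
    exact zero_ne_one hk1
  have hlin := (affineIndependent_iff_linearIndependent_vsub ℤ (m j) (i0 j)).1 (hm j)
  set u : {i // i ≠ i0 j} → Lˣ := fun i => Units.mk0 (φ (ε j i) / φ (ε j (i0 j)))
    (div_ne_zero ((map_ne_zero φ).2 (hε0 _)) ((map_ne_zero φ).2 (hε0 _))) with hu
  have hroot : ∀ i, ∃ k : ℕ, k ≠ 0 ∧ u i ^ k = 1 := by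
    intro i
    obtain ⟨k1, hk1, hk1'⟩ := hε j i
    obtain ⟨k2, hk2, hk2'⟩ := hε j (i0 j)
    refine ⟨k1 * k2, mul_ne_zero hk1 hk2, ?_⟩
    apply Units.ext
    rw [Units.val_pow_eq_pow_val, hu, Units.val_mk0, div_pow, ← map_pow, ← map_pow, pow_mul, hk1',
      one_pow, mul_comm k1 k2, pow_mul, hk2', one_pow, map_one, div_one, Units.val_one]
  have hφv : ∀ i, v (φ (ε j i)) = 1 := by
    intro i
    obtain ⟨k1, hk1, hk1'⟩ := hε j i
    exact val_root v hk1 (by rw [← map_pow, hk1', map_one])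
  have hterm : ∀ i : {i // i ≠ i0 j},
      ((u i * mon z (m j i -ᵥ m j (i0 j)) : Lˣ) : L) =
        (φ (ε j i) * ((mon z (m j i) : Lˣ) : L)) /
          (φ (ε j (i0 j)) * ((mon z (m j (i0 j)) : Lˣ) : L)) := by
    intro i
    rw [vsub_eq_sub, mon_sub, Units.val_mul, Units.val_div_eq_div_val, hu, Units.val_mk0,
      div_mul_div_comm]
  refine mem_unitPart_of_indep v a hp _ hlin u hroot (fun i => ?_) ?_
  · rw [hterm, map_div₀, map_mul, map_mul, hφv, hφv, one_mul, one_mul, hvm, hvm,
      div_le_one₀ (by exact WithZero.exp_pos)]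
    exact WithZero.exp_le_exp.2 (hi0 j i)
  · have hsum2 : (1 : L) + ∑ i : {i // i ≠ i0 j},
        ((u i * mon z (m j i -ᵥ m j (i0 j)) : Lˣ) : L) =
        lev φ z (G j) / (φ (ε j (i0 j)) * ((mon z (m j (i0 j)) : Lˣ) : L)) := by
      have hne : φ (ε j (i0 j)) * ((mon z (m j (i0 j)) : Lˣ) : L) ≠ 0 :=
        mul_ne_zero ((map_ne_zero φ).2 (hε0 _)) (Units.ne_zero _)
      have hlev : lev φ z (G j) = ∑ i, φ (ε j i) * ((mon z (m j i) : Lˣ) : L) := by
        rw [hGe j, map_sum]
        simp only [lev_single]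
      have h7 := Fintype.sum_subtype_add_sum_subtype (fun i => i ≠ i0 j)
        (fun i => φ (ε j i) * ((mon z (m j i) : Lˣ) : L))
      rw [Finset.sum_congr rfl fun i _ => hterm i, ← Finset.sum_div, eq_div_iff hne, add_mul,
        div_mul_cancel₀ _ hne, one_mul, hlev]
      rw [← Finset.add_sum_erase Finset.univ _ (Finset.mem_univ (i0 j))]
      congr 1
      symm
      refine Finset.sum_subtype (Finset.univ.erase (i0 j)) (fun i => ?_)
        (fun i => φ (ε j i) * ((mon z (m j i) : Lˣ) : L))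
      simp
    rw [hsum2, map_div₀, map_mul, hφv, one_mul, hvm, div_lt_one₀ (by exact WithZero.exp_pos)]
    exact hj

end tame

end Pool.Agent.N65.TL
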