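import Pool.Agent.N65.TL.Branch
import Pool.Agent.N65.TL.Lau
set_option autoImplicit false

/-!
Functions `z_i` on tori with `W(z) = w_0 Λ^k`, for a Laurent polynomial `W` with an exposed vertex.
-/

namespace Pool.Agent.N65.TL

open Filter Topology

open Pool.Agent.TH826.MK

open Pool.Agent.TH826.SX (good_circ lw_circ circ_ne_zero)

section vertex

/-- the pairing of functionals and exponents -/
def dot {n : ℕ} (a m : Fin n → ℤ) : ℤ := ∑ i, a i * m i

theorem dot_sub {n : ℕ} (a m m' : Fin n → ℤ) : dot a (m - m') = dot a m - dot a m' := by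
  unfold dot
  rw [← Finset.sum_sub_distrib]
  exact Finset.sum_congr rfl fun i _ => by rw [Pi.sub_apply]; ring

/-- a functional which does not vanish on finitely many given vectors -/
theorem exists_generic {n : ℕ} (S : Finset (Fin (n + 1) → ℤ)) (hS : ∀ d ∈ S, d ≠ 0) :
    ∃ a : Fin (n + 1) → ℤ, a ≠ 0 ∧ ∀ d ∈ S, dot a d ≠ 0 := by
  classical
  set P : (Fin (n + 1) → ℤ) → Polynomial ℤ := fun d =>
    ∑ i, Polynomial.C (d i) * Polynomial.X ^ (i : ℕ) with hP
  have hP0 : ∀ d ∈ S, P d ≠ 0 := by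
    intro d hd h0
    apply hS d hd
    funext i
    have h1 := congrArg (fun p => Polynomial.coeff p (i : ℕ)) h0
    simp only [hP, Polynomial.finsetSum_coeff, Polynomial.coeff_C_mul, Polynomial.coeff_X_pow,
      Polynomial.coeff_zero] at h1
    rw [Finset.sum_eq_single i] at h1
    · simpa using h1
    · intro j _ hj
      rw [if_neg fun h => hj (Fin.ext h.symm), mul_zero]
    · intro h
      exact absurd (Finset.mem_univ i) h
  have hne : ∏ d ∈ S, P d ≠ 0 := Finset.prod_ne_zero_iff.2 hP0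
  have hex : ∃ N : ℤ, Polynomial.eval N (∏ d ∈ S, P d) ≠ 0 := by
    by_contra hcon
    push Not at hcon
    apply hne
    refine Polynomial.funext fun N => ?_
    rw [hcon, Polynomial.eval_zero]
  obtain ⟨N, hN⟩ := hex
  refine ⟨fun i => N ^ (i : ℕ), fun h => ?_, fun d hd h0 => ?_⟩
  · have h1 := congrFun h 0
    simp at h1
  · rw [Polynomial.eval_prod] at hN
    apply (Finset.prod_ne_zero_iff.1 hN) d hd
    rw [← h0]
    unfold dot
    simp only [hP, Polynomial.eval_finsetSum, Polynomial.eval_mul, Polynomial.eval_C,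
      Polynomial.eval_pow, Polynomial.eval_X]
    exact Finset.sum_congr rfl fun i _ => mul_comm _ _

variable {K : Type*} [Field K] {s : ℕ}

/-- an exposed vertex -/
theorem exists_vertex {W : LP K (s + 1)} (hW : Interior W) :
    ∃ a v : Fin (s + 1) → ℤ, W.coeff v ≠ 0 ∧ 0 < dot a v ∧
      ∀ m, W.coeff m ≠ 0 → m ≠ v → dot a m < dot a v := by
  classical
  set S : Finset (Fin (s + 1) → ℤ) := ((W.coeff.support ×ˢ W.coeff.support).image
    fun p => p.1 - p.2).erase 0 with hS
  obtain ⟨a, ha, h⟩ := exists_generic S fun d hd => Finset.ne_of_mem_erase hd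
  obtain ⟨m1, hm1, hpos⟩ := hW a ha
  obtain ⟨v, hv, hmax⟩ := Finset.exists_max_image W.coeff.support (dot a)
    ⟨m1, Finsupp.mem_support_iff.2 hm1⟩
  refine ⟨a, v, Finsupp.mem_support_iff.1 hv, ?_, fun m hm hmv => ?_⟩
  · exact lt_of_lt_of_le hpos (hmax m1 (Finsupp.mem_support_iff.2 hm1))
  · refine lt_of_le_of_ne (hmax m (Finsupp.mem_support_iff.2 hm)) fun he => ?_
    refine h (m - v) ?_ ?_
    · rw [hS, Finset.mem_erase]
      exact ⟨sub_ne_zero.2 hmv, Finset.mem_image.2 ⟨(m, v), Finset.mem_product.2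
        ⟨Finsupp.mem_support_iff.2 hm, hv⟩, rfl⟩⟩
    · rw [dot_sub, he, sub_self]

/-- directions orthogonal to `v` -/
def bdir (v : Fin (s + 1) → ℤ) (i0 : Fin (s + 1)) (l : Fin s) : Fin (s + 1) → ℤ :=
  v i0 • Pi.single (i0.succAbove l) 1 - v (i0.succAbove l) • Pi.single i0 1

theorem bdir_dot (v : Fin (s + 1) → ℤ) (i0 : Fin (s + 1)) (l : Fin s) :
    ∑ i, bdir v i0 l i * v i = 0 := by
  have h1 : ∀ i, bdir v i0 l i * v i = v i0 * (if i = i0.succAbove l then v i else 0) -
      v (i0.succAbove l) * (if i = i0 then v i else 0) := by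
    intro i
    unfold bdir
    simp only [Pi.sub_apply, Pi.smul_apply, Pi.single_apply, smul_eq_mul]
    by_cases h : i = i0.succAbove l
    · by_cases h' : i = i0
      · rw [if_pos h, if_pos h', if_pos h, if_pos h']
        ring
      · rw [if_pos h, if_neg h', if_pos h, if_neg h']
        ring
    · by_cases h' : i = i0
      · rw [if_neg h, if_pos h', if_neg h, if_pos h']
        ring
      · rw [if_neg h, if_neg h', if_neg h, if_neg h']
        ring
  simp only [h1]
  rw [Finset.sum_sub_distrib, ← Finset.mul_sum, ← Finset.mul_sum, Finset.sum_ite_eq',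
    Finset.sum_ite_eq', if_pos (Finset.mem_univ _), if_pos (Finset.mem_univ _)]
  ring

/-- the matrix of the orders of the `z_i` -/
noncomputable def zmat (a v : Fin (s + 1) → ℤ) (i0 : Fin (s + 1)) :
    Matrix (Fin (s + 1)) (Fin (s + 1)) ℝ :=
  Matrix.of fun i => Fin.cons ((a i : ℝ) / dot a v) fun l => (bdir v i0 l i : ℝ)

theorem det_zmat {a v : Fin (s + 1) → ℤ} (h : 0 < dot a v) {i0 : Fin (s + 1)} (hi0 : v i0 ≠ 0) :
    (zmat a v i0).det ≠ 0 := by
  intro h0
  obtain ⟨c, hc, hz⟩ := Matrix.exists_vecMul_eq_zero_iff.2 h0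
  have hk : ((dot a v : ℤ) : ℝ) ≠ 0 := by exact_mod_cast h.ne'
  have hv0 : ((v i0 : ℤ) : ℝ) ≠ 0 := by exact_mod_cast hi0
  have e0 : ∑ i, c i * a i = 0 := by
    have h1 := congrFun hz 0
    rw [Matrix.vecMul, dotProduct, Pi.zero_apply] at h1
    have h2 : ∀ i, c i * zmat a v i0 i 0 = (c i * a i) / dot a v := by
      intro i
      show c i * ((a i : ℝ) / dot a v) = _
      ring
    simp only [h2] at h1
    rw [← Finset.sum_div, div_eq_zero_iff] at h1
    exact h1.resolve_right hk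
  have e1 : ∀ l : Fin s, v i0 * c (i0.succAbove l) = v (i0.succAbove l) * c i0 := by
    intro l
    have h1 := congrFun hz l.succ
    rw [Matrix.vecMul, dotProduct, Pi.zero_apply] at h1
    have h2 : ∀ i, c i * zmat a v i0 i l.succ = v i0 * (if i = i0.succAbove l then c i else 0) -
        v (i0.succAbove l) * (if i = i0 then c i else 0) := by
      intro i
      have h3 : zmat a v i0 i l.succ = (bdir v i0 l i : ℝ) := rfl
      rw [h3]
      unfold bdir
      simp only [Pi.sub_apply, Pi.smul_apply, Pi.single_apply, smul_eq_mul]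
      push_cast
      by_cases h : i = i0.succAbove l
      · by_cases h' : i = i0
        · rw [if_pos h, if_pos h', if_pos h, if_pos h']
          ring
        · rw [if_pos h, if_neg h', if_pos h, if_neg h']
          ring
      · by_cases h' : i = i0
        · rw [if_neg h, if_pos h', if_neg h, if_pos h']
          ring
        · rw [if_neg h, if_neg h', if_neg h, if_neg h']
          ring
    simp only [h2] at h1
    rw [Finset.sum_sub_distrib, ← Finset.mul_sum, ← Finset.mul_sum, Finset.sum_ite_eq',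
      Finset.sum_ite_eq', if_pos (Finset.mem_univ _), if_pos (Finset.mem_univ _)] at h1
    linarith
  have e2 : ∀ i, v i0 * c i = v i * c i0 := by
    intro i
    rcases Fin.eq_self_or_eq_succAbove i0 i with h1 | ⟨l, h1⟩
    · rw [h1]
    · rw [h1]
      exact e1 l
  have e3 : (dot a v : ℝ) * c i0 = 0 := by
    have h1 : ((dot a v : ℤ) : ℝ) = ∑ i, (a i : ℝ) * v i := by
      unfold dot
      push_cast
      rfl
    rw [h1, Finset.sum_mul]
    have h2 : ∀ i, (a i : ℝ) * v i * c i0 = v i0 * (c i * a i) := by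
      intro i
      have := e2 i
      linear_combination (-(a i : ℝ)) * this
    simp only [h2]
    rw [← Finset.mul_sum, e0, mul_zero]
  have e4 : c i0 = 0 := (mul_eq_zero.1 e3).resolve_left hk
  apply hc
  funext i
  have h1 := e2 i
  rw [e4, mul_zero] at h1
  exact (mul_eq_zero.1 h1).resolve_left hv0

end vertex

section fn

variable {K : Type*} [Field K] {s : ℕ}

theorem per_circ {D : ℕ} (ρ : ℝ) (k : Fin D) : Per fun θ : Fin D → ℝ => circ ρ (θ k) := by
  intro θ i
  exact congrFun (tpt_add_single (fun _ => ρ) θ i) k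

/-- the angular parts -/
noncomputable def tau (v : Fin (s + 1) → ℤ) (i0 : Fin (s + 1)) {D : ℕ} (q : Fin s → Fin D)
    (i : Fin (s + 1)) (θ : Fin D → ℝ) : ℂ := ∏ l, circ 1 (θ (q l)) ^ (bdir v i0 l i)

variable {v : Fin (s + 1) → ℤ} {i0 : Fin (s + 1)} {D : ℕ} {q : Fin s → Fin D}

theorem good_tau (i : Fin (s + 1)) : Good (tau v i0 q i) :=
  good_prod Finset.univ fun l => good_zpow (good_circ one_pos (q l)) _

theorem per_tau (i : Fin (s + 1)) : Per (tau v i0 q i) := by
  intro θ j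
  unfold tau
  refine Finset.prod_congr rfl fun l _ => ?_
  have h := per_circ 1 (q l) θ j
  simp only at h
  rw [h]

theorem norm_tau (i : Fin (s + 1)) (θ : Fin D → ℝ) : ‖tau v i0 q i θ‖ = 1 := by
  unfold tau
  rw [norm_prod]
  refine Finset.prod_eq_one fun l _ => ?_
  rw [norm_zpow, norm_circ zero_le_one, one_zpow]

theorem lw_tau (i : Fin (s + 1)) (j : Fin D) (θ : Fin D → ℝ) :
    lw (tau v i0 q i) j θ =
      2 * Real.pi * Complex.I * ∑ l, if j = q l then (bdir v i0 l i : ℂ) else 0 := by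
  classical
  have h1 : tau v i0 q i = fun θ => ∏ l ∈ Finset.univ, circ 1 (θ (q l)) ^ (bdir v i0 l i) := rfl
  rw [h1, lw_prod Finset.univ fun l => good_zpow (good_circ one_pos (q l)) _, Finset.mul_sum]
  refine Finset.sum_congr rfl fun l _ => ?_
  rw [lw_zpow (good_circ one_pos (q l)), lw_circ one_pos]
  split_ifs
  · ring
  · ring

theorem prod_tau_v (θ : Fin D → ℝ) : ∏ i, tau v i0 q i θ ^ (v i) = 1 := by
  unfold tau
  simp only [← Finset.prod_zpow, ← zpow_mul]
  rw [Finset.prod_comm]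
  refine Finset.prod_eq_one fun l _ => ?_
  have h0 : circ 1 (θ (q l)) ≠ 0 := circ_ne_zero one_pos _
  have h1 : ∀ t : Finset (Fin (s + 1)), ∏ i ∈ t, circ 1 (θ (q l)) ^ (bdir v i0 l i * v i) =
      circ 1 (θ (q l)) ^ (∑ i ∈ t, bdir v i0 l i * v i) := by
    intro t
    induction t using Finset.induction_on with
    | empty => simp
    | insert j t hj ih => rw [Finset.prod_insert hj, Finset.sum_insert hj, zpow_add₀ h0, ih]
  rw [h1, bdir_dot, zpow_zero]

theorem prod_zpow_dot {y : ℂ} (hy : y ≠ 0) (a m : Fin (s + 1) → ℤ) (t : Fin (s + 1) → ℂ) :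
    ∏ i, (y ^ (a i) * t i) ^ (m i) = y ^ (dot a m) * ∏ i, t i ^ (m i) := by
  unfold dot
  simp only [mul_zpow]
  rw [Finset.prod_mul_distrib]
  congr 1
  have h1 : ∀ u : Finset (Fin (s + 1)), ∏ i ∈ u, (y ^ a i) ^ m i =
      y ^ (∑ i ∈ u, a i * m i) := by
    intro u
    induction u using Finset.induction_on with
    | empty => simp
    | insert j u hj ih =>
      rw [Finset.prod_insert hj, Finset.sum_insert hj, zpow_add₀ hy, ih, zpow_mul]
  exact h1 Finset.univ

/-- Functions `z_i` with `W(z) = w_0 Λ^k` for large `Λ`. -/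
theorem exists_z (σ : K →+* ℂ) {W : LP K (s + 1)} {a v : Fin (s + 1) → ℤ} (hv : W.coeff v ≠ 0)
    (hpos : 0 < dot a v) (hmax : ∀ m, W.coeff m ≠ 0 → m ≠ v → dot a m < dot a v)
    (i0 : Fin (s + 1)) {B δ : ℝ} (hB : 0 ≤ B) (hδ : 0 < δ) :
    ∃ R : ℝ, 1 ≤ R ∧ ∀ (D : ℕ) (q : Fin s → Fin D) (Λ : (Fin D → ℝ) → ℂ), Good Λ → Per Λ →
      (∀ θ, R ≤ ‖Λ θ‖) → (∀ j θ, ‖lw Λ j θ‖ ≤ B) →
      ∃ z : Fin (s + 1) → (Fin D → ℝ) → ℂ, (∀ i, Good (z i)) ∧ (∀ i, Per (z i)) ∧
        (∀ i θ, |Real.log ‖z i θ‖ - a i * Real.log ‖Λ θ‖| ≤ δ) ∧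
        (∀ i j θ, ‖lw (z i) j θ - (a i * lw Λ j θ + 2 * Real.pi * Complex.I *
          ∑ l, if j = q l then (bdir v i0 l i : ℂ) else 0)‖ ≤ δ) ∧
        ∀ θ, ∑ m ∈ W.coeff.support, σ (W.coeff m) * ∏ i, z i θ ^ (m i) =
          σ (W.coeff v) * Λ θ ^ (dot a v).toNat := by
  classical
  set k : ℕ := (dot a v).toNat with hk
  have hkz : (k : ℤ) = dot a v := Int.toNat_of_nonneg hpos.le
  have hk0 : 0 < k := by omega
  set S := W.coeff.support.erase v with hS
  -- bounds
  set BT : ℝ := ∑ m ∈ W.coeff.support, ∑ i, |(m i : ℝ)| *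
    (2 * Real.pi * ∑ l, |(bdir v i0 l i : ℝ)|) with hBT
  have hpi := Real.pi_pos
  have hbt0 : ∀ m : Fin (s + 1) → ℤ, 0 ≤ ∑ i, |(m i : ℝ)| *
      (2 * Real.pi * ∑ l, |(bdir v i0 l i : ℝ)|) := fun m =>
    Finset.sum_nonneg fun i _ => mul_nonneg (abs_nonneg _) (mul_nonneg (by positivity)
      (Finset.sum_nonneg fun l _ => abs_nonneg _))
  have hBT0 : 0 ≤ BT := Finset.sum_nonneg fun m _ => hbt0 m
  set A : ℝ := 1 + ∑ i, |(a i : ℝ)| with hA
  have hA1 : 0 < A := by
    have : 0 ≤ ∑ i, |(a i : ℝ)| := Finset.sum_nonneg fun i _ => abs_nonneg _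
    linarith
  have hAi : ∀ i, |(a i : ℝ)| ≤ A := by
    intro i
    have h1 := Finset.single_le_sum (f := fun i => |(a i : ℝ)|) (fun i _ => abs_nonneg _)
      (Finset.mem_univ i)
    have h2 : |(a i : ℝ)| ≤ ∑ i, |(a i : ℝ)| := h1
    linarith
  obtain ⟨R, hR1, hR⟩ := exists_branch (ι := S) (fun m => dot a m.1)
    (fun m => σ (W.coeff m.1) / σ (W.coeff v)) hk0
    (fun m => by
      rw [hkz]
      exact hmax m.1 (Finsupp.mem_support_iff.1 (Finset.mem_of_mem_erase m.2))
        (Finset.ne_of_mem_erase m.2))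
    (B := B + BT) (δ := δ / A) (by linarith) (by positivity)
  refine ⟨R, hR1, fun D q Λ hΛ hΛp hΛR hΛB => ?_⟩
  set T : S → (Fin D → ℝ) → ℂ := fun m θ => ∏ i, tau v i0 q i θ ^ (m.1 i) with hT
  have hTg : ∀ m, Good (T m) := fun m => good_prod Finset.univ fun i => good_zpow (good_tau i) _
  have hlT : ∀ m j θ, ‖lw (T m) j θ‖ ≤ BT := by
    intro m j θ
    have h1 : lw (T m) j θ = ∑ i, (m.1 i : ℂ) * lw (tau v i0 q i) j θ := by
      rw [hT]
      simp only
      rw [lw_prod Finset.univ fun i => good_zpow (good_tau i) _]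
      exact Finset.sum_congr rfl fun i _ => lw_zpow (good_tau i) _ _ _
    rw [h1]
    have h2 : ∑ i, |(m.1 i : ℝ)| * (2 * Real.pi * ∑ l, |(bdir v i0 l i : ℝ)|) ≤ BT :=
      Finset.single_le_sum (f := fun m : Fin (s + 1) → ℤ => ∑ i, |(m i : ℝ)| *
        (2 * Real.pi * ∑ l, |(bdir v i0 l i : ℝ)|)) (fun m _ => hbt0 m)
        (Finset.mem_of_mem_erase m.2)
    refine le_trans (norm_sum_le _ _) (le_trans (Finset.sum_le_sum fun i _ => ?_) h2)
    rw [norm_mul, Complex.norm_intCast, lw_tau, norm_mul]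
    refine mul_le_mul_of_nonneg_left ?_ (abs_nonneg _)
    have h3 : ‖(2 * Real.pi * Complex.I : ℂ)‖ = 2 * Real.pi := by
      rw [norm_mul, norm_mul, Complex.norm_I, Complex.norm_real, Complex.norm_ofNat, mul_one,
        Real.norm_eq_abs, abs_of_pos Real.pi_pos]
    rw [h3]
    refine mul_le_mul_of_nonneg_left ?_ (by positivity)
    refine (norm_sum_le _ _).trans (Finset.sum_le_sum fun l _ => ?_)
    split_ifs
    · rw [Complex.norm_intCast]
    · rw [norm_zero]
      exact abs_nonneg _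
  obtain ⟨h, hg, hdep, hlog, hlwh, heq⟩ := hR D Λ T hΛ hTg hΛR
    (fun m θ => by
      rw [hT]
      simp only
      rw [norm_prod]
      refine (Finset.prod_eq_one fun i _ => ?_).le
      rw [norm_zpow, norm_tau, one_zpow])
    (fun j θ => (hΛB j θ).trans (by linarith))
    (fun m j θ => (hlT m j θ).trans (by linarith))
  have hY : Good fun θ => Λ θ * h θ := hΛ.mul hg
  have hδA : ∀ i, |(a i : ℝ)| * (δ / A) ≤ δ := by
    intro i
    calc |(a i : ℝ)| * (δ / A) ≤ A * (δ / A) :=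
          mul_le_mul_of_nonneg_right (hAi i) (by positivity)
      _ = δ := by field_simp
  refine ⟨fun i θ => (Λ θ * h θ) ^ (a i) * tau v i0 q i θ, fun i =>
    (good_zpow hY _).mul (good_tau i), fun i θ j => ?_, fun i θ => ?_, fun i j θ => ?_,
    fun θ => ?_⟩
  · have h1 : h (θ + Pi.single j 1) = h θ := hdep _ _ (hΛp θ j) fun m => by
      rw [hT]
      exact Finset.prod_congr rfl fun i _ => by rw [per_tau i θ j]
    show (Λ (θ + Pi.single j 1) * h (θ + Pi.single j 1)) ^ (a i) *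
      tau v i0 q i (θ + Pi.single j 1) = _
    rw [h1, hΛp θ j, per_tau i θ j]
  · rw [norm_mul, norm_tau, mul_one, norm_zpow, Real.log_zpow, norm_mul,
      Real.log_mul (norm_ne_zero_iff.2 (hΛ.ne_zero θ)) (norm_ne_zero_iff.2 (hg.ne_zero θ)),
      mul_add, add_sub_cancel_left, abs_mul]
    exact (mul_le_mul_of_nonneg_left (hlog θ) (abs_nonneg _)).trans (hδA i)
  · rw [lw_mul (good_zpow hY _) (good_tau i), lw_zpow hY, lw_mul hΛ hg, lw_tau]
    have h1 : (a i : ℂ) * (lw Λ j θ + lw h j θ) + 2 * Real.pi * Complex.I *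
        (∑ l, if j = q l then (bdir v i0 l i : ℂ) else 0) - (a i * lw Λ j θ +
          2 * Real.pi * Complex.I * ∑ l, if j = q l then (bdir v i0 l i : ℂ) else 0) =
        a i * lw h j θ := by ring
    rw [h1, norm_mul, Complex.norm_intCast]
    exact (mul_le_mul_of_nonneg_left (hlwh j θ) (abs_nonneg _)).trans (hδA i)
  · have hv' : v ∈ W.coeff.support := Finsupp.mem_support_iff.2 hv
    have hΛ0 := hΛ.ne_zero θ
    have hh0 := hg.ne_zero θ
    have hσv : σ (W.coeff v) ≠ 0 := (map_ne_zero σ).2 hv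
    simp only [prod_zpow_dot (mul_ne_zero hΛ0 hh0)]
    rw [← Finset.add_sum_erase _ _ hv', prod_tau_v, mul_one]
    have h1 : ∑ m ∈ W.coeff.support.erase v, σ (W.coeff m) *
        ((Λ θ * h θ) ^ (dot a m) * ∏ i, tau v i0 q i θ ^ (m i)) =
        σ (W.coeff v) * Λ θ ^ k * ∑ m : S, σ (W.coeff m.1) / σ (W.coeff v) *
          Λ θ ^ (dot a m.1 - k) * T m θ * h θ ^ (dot a m.1) := by
      rw [Finset.mul_sum, ← Finset.sum_coe_sort S]
      refine Finset.sum_congr rfl fun m _ => ?_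
      have h4 : T m θ = ∏ i, tau v i0 q i θ ^ (m.1 i) := rfl
      rw [mul_zpow, zpow_sub₀ hΛ0, zpow_natCast, h4]
      field_simp
    have h2 : (Λ θ * h θ) ^ (dot a v) = Λ θ ^ k * h θ ^ k := by
      rw [← hkz, zpow_natCast, mul_pow]
    rw [h1, h2]
    have h3 := heq θ
    linear_combination (σ (W.coeff v) * Λ θ ^ k) * h3

end fn

end Pool.Agent.N65.TL
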