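import Pool.Agent.TH577.UA.Loc
set_option autoImplicit false

/-!
The solution `h` near `1` of `h^k + ∑ c_i Λ^(e_i - k) T_i h^(e_i) = 1`, `e_i < k`, for large `Λ`.
-/

namespace Pool.Agent.N65.TL

open Filter Topology

open Pool.Agent.TH826.MK

open Pool.Agent.TH826.SX (exists_nice)

section zpow

variable {D : ℕ} {g : (Fin D → ℝ) → ℂ}

theorem good_inv (hw : Good g) : Good fun θ => (g θ)⁻¹ :=
  ⟨hw.smooth.inv hw.ne_zero, fun θ => inv_ne_zero (hw.ne_zero θ)⟩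

theorem lw_inv (hw : Good g) (j : Fin D) (θ : Fin D → ℝ) :
    lw (fun θ => (g θ)⁻¹) j θ = - lw g j θ := by
  have h1 := lw_mul hw (good_inv hw) j θ
  have h2 : (fun θ => g θ * (g θ)⁻¹) = fun _ => (1 : ℂ) :=
    funext fun θ => mul_inv_cancel₀ (hw.ne_zero θ)
  rw [h2, lw_const] at h1
  linear_combination -h1

theorem good_zpow (hg : Good g) (m : ℤ) : Good fun θ => g θ ^ m := by
  obtain ⟨n, rfl | rfl⟩ := m.eq_nat_or_neg
  · simp only [zpow_natCast]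
    exact Pool.Agent.TH577.UA.good_pow hg n
  · simp only [zpow_neg, zpow_natCast]
    exact good_inv (Pool.Agent.TH577.UA.good_pow hg n)

theorem lw_zpow (hg : Good g) (m : ℤ) (j : Fin D) (θ : Fin D → ℝ) :
    lw (fun θ => g θ ^ m) j θ = m * lw g j θ := by
  obtain ⟨n, rfl | rfl⟩ := m.eq_nat_or_neg
  · simp only [zpow_natCast]
    rw [Pool.Agent.TH577.UA.lw_pow hg n]
    push_cast
    ring
  · simp only [zpow_neg, zpow_natCast]
    rw [lw_inv (Pool.Agent.TH577.UA.good_pow hg n), Pool.Agent.TH577.UA.lw_pow hg n]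
    push_cast
    ring

theorem contDiffAt_zpow {E : Type*} [NormedAddCommGroup E] [NormedSpace ℂ E] {φ : E → ℂ} {x : E}
    (h : ContDiffAt ℂ 2 φ x) (h0 : φ x ≠ 0) (m : ℤ) : ContDiffAt ℂ 2 (fun y => φ y ^ m) x := by
  obtain ⟨n, rfl | rfl⟩ := m.eq_nat_or_neg
  · simp only [zpow_natCast]
    exact h.pow n
  · simp only [zpow_neg, zpow_natCast]
    exact (h.pow n).inv (pow_ne_zero n h0)

end zpow

section implicit

variable {ι : Type*} [Fintype ι]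

/-- The solution near `1` of `h^k + ∑ ε_i h^(e_i) = 1`. -/
theorem exists_implicit (e : ι → ℤ) {k : ℕ} (hk : 0 < k) :
    ∃ H : (ι → ℂ) → ℂ, ContDiffAt ℂ 2 H 0 ∧ H 0 = 1 ∧
      ∀ᶠ x in 𝓝 (0 : ι → ℂ), H x ^ k + ∑ i, x i * H x ^ (e i) = 1 := by
  classical
  set Φ : (ι → ℂ) × ℂ → (ι → ℂ) × ℂ := fun u =>
    (u.1, (1 + u.2) ^ k + ∑ i, u.1 i * (1 + u.2) ^ (e i) - 1) with hΦ
  have hk0 : (k : ℂ) ≠ 0 := by exact_mod_cast hk.ne'
  have h1u : ContDiffAt ℂ 2 (fun u : (ι → ℂ) × ℂ => 1 + u.2) 0 :=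
    contDiffAt_const.add contDiffAt_snd
  have h10 : (1 : ℂ) + ((0 : (ι → ℂ) × ℂ)).2 ≠ 0 := by simp
  have hpr : ∀ i, ContDiffAt ℂ 2 (fun u : (ι → ℂ) × ℂ => u.1 i) 0 := fun i =>
    ((contDiff_apply ℂ ℂ i).comp contDiff_fst).contDiffAt
  have hΦc : ContDiffAt ℂ 2 Φ 0 := by
    refine contDiffAt_fst.prodMk (((h1u.pow k).add ?_).sub contDiffAt_const)
    exact ContDiffAt.sum fun i _ => (hpr i).mul (contDiffAt_zpow h1u h10 (e i))
  have hΦ0 : Φ 0 = 0 := by simp [hΦ]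
  set S : (ι → ℂ) →L[ℂ] ℂ := ∑ i, ContinuousLinearMap.proj (R := ℂ) (φ := fun _ : ι => ℂ) i with hS
  set f1 : ((ι → ℂ) × ℂ) →L[ℂ] ((ι → ℂ) × ℂ) :=
    (ContinuousLinearMap.fst ℂ (ι → ℂ) ℂ).prod
      ((k : ℂ) • ContinuousLinearMap.snd ℂ (ι → ℂ) ℂ +
        S.comp (ContinuousLinearMap.fst ℂ (ι → ℂ) ℂ)) with hf1
  set f2 : ((ι → ℂ) × ℂ) →L[ℂ] ((ι → ℂ) × ℂ) :=
    (ContinuousLinearMap.fst ℂ (ι → ℂ) ℂ).prod
      ((k : ℂ)⁻¹ • (ContinuousLinearMap.snd ℂ (ι → ℂ) ℂ -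
        S.comp (ContinuousLinearMap.fst ℂ (ι → ℂ) ℂ))) with hf2
  let E : ((ι → ℂ) × ℂ) ≃L[ℂ] ((ι → ℂ) × ℂ) := ContinuousLinearEquiv.equivOfInverse f1 f2
    (fun u => by
      refine Prod.ext rfl ?_
      simp only [hf1, hf2, ContinuousLinearMap.prod_apply, smul_apply, sub_apply,
        add_apply, ContinuousLinearMap.comp_apply, ContinuousLinearMap.coe_fst',
        ContinuousLinearMap.coe_snd', smul_eq_mul]
      field_simp
      ring)
    (fun u => by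
      refine Prod.ext rfl ?_
      simp only [hf1, hf2, ContinuousLinearMap.prod_apply, smul_apply, sub_apply,
        add_apply, ContinuousLinearMap.comp_apply, ContinuousLinearMap.coe_fst',
        ContinuousLinearMap.coe_snd', smul_eq_mul]
      field_simp
      ring)
  have hΦd : HasFDerivAt Φ (E : ((ι → ℂ) × ℂ) →L[ℂ] ((ι → ℂ) × ℂ)) 0 := by
    have a1 : HasFDerivAt (fun u : (ι → ℂ) × ℂ => (1 + u.2) ^ k)
        ((k : ℂ) • ContinuousLinearMap.snd ℂ (ι → ℂ) ℂ) 0 := by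
      have b1 : HasFDerivAt (fun u : (ι → ℂ) × ℂ => (1 : ℂ) + u.2)
          (ContinuousLinearMap.snd ℂ (ι → ℂ) ℂ) 0 := hasFDerivAt_snd.const_add 1
      have b2 := b1.pow k
      refine b2.congr_fderiv ?_
      refine ContinuousLinearMap.ext fun u => ?_
      simp
    have a2 : ∀ i, HasFDerivAt (fun u : (ι → ℂ) × ℂ => u.1 i * (1 + u.2) ^ (e i))
        ((ContinuousLinearMap.proj (R := ℂ) (φ := fun _ : ι => ℂ) i).comp
          (ContinuousLinearMap.fst ℂ (ι → ℂ) ℂ)) 0 := by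
      intro i
      have b1 : HasFDerivAt (fun u : (ι → ℂ) × ℂ => u.1 i)
          ((ContinuousLinearMap.proj (R := ℂ) (φ := fun _ : ι => ℂ) i).comp
          (ContinuousLinearMap.fst ℂ (ι → ℂ) ℂ)) 0 :=
        ((ContinuousLinearMap.proj (R := ℂ) (φ := fun _ : ι => ℂ) i).comp
          (ContinuousLinearMap.fst ℂ (ι → ℂ) ℂ)).hasFDerivAt
      have b2 := ((contDiffAt_zpow h1u h10 (e i)).differentiableAt (by norm_num)).hasFDerivAt
      refine (b1.mul b2).congr_fderiv ?_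
      refine ContinuousLinearMap.ext fun u => ?_
      simp
    have a3 := (a1.add (HasFDerivAt.fun_sum (u := Finset.univ) fun i _ => a2 i)).sub_const 1
    refine (hasFDerivAt_fst.prodMk a3).congr_fderiv ?_
    refine ContinuousLinearMap.ext fun u => ?_
    refine Prod.ext rfl ?_
    show _ = (f1 u).2
    simp [hf1, hS]
  have hn : (2 : WithTop ℕ∞) ≠ 0 := by norm_num
  set Ψ := hΦc.localInverse hΦd hn with hΨ
  have hΨc : ContDiffAt ℂ 2 Ψ 0 := by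
    have := hΦc.to_localInverse hΦd hn
    rwa [hΦ0] at this
  have hΨ0 : Ψ 0 = 0 := by
    have := hΦc.localInverse_apply_image hΦd hn
    rwa [hΦ0] at this
  have hright : ∀ᶠ ζ in 𝓝 (0 : (ι → ℂ) × ℂ), Φ (Ψ ζ) = ζ := by
    have := (hΦc.hasStrictFDerivAt' hΦd hn).eventually_right_inverse
    rwa [hΦ0] at this
  have hin : ContDiff ℂ 2 (fun x : ι → ℂ => ((x, 0) : (ι → ℂ) × ℂ)) :=
    contDiff_id.prodMk contDiff_const
  have hin0 : Tendsto (fun x : ι → ℂ => ((x, 0) : (ι → ℂ) × ℂ)) (𝓝 0) (𝓝 0) :=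
    hin.continuous.tendsto' 0 0 rfl
  refine ⟨fun x => 1 + (Ψ (x, 0)).2, ?_, ?_, ?_⟩
  · refine contDiffAt_const.add (ContDiffAt.snd ?_)
    exact ContDiffAt.comp (g := Ψ) (0 : ι → ℂ) hΨc hin.contDiffAt
  · show 1 + (Ψ 0).2 = 1
    rw [hΨ0]
    simp
  · filter_upwards [hin0.eventually hright] with x hx
    have h0 : ((Ψ (x, 0)).1, (1 + (Ψ (x, 0)).2) ^ k +
        ∑ i, (Ψ (x, 0)).1 i * (1 + (Ψ (x, 0)).2) ^ (e i) - 1) = (x, 0) := hx
    have h1 : (Ψ (x, 0)).1 = x := (Prod.ext_iff.1 h0).1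
    have h2 : (1 + (Ψ (x, 0)).2) ^ k +
        ∑ i, (Ψ (x, 0)).1 i * (1 + (Ψ (x, 0)).2) ^ (e i) - 1 = 0 := (Prod.ext_iff.1 h0).2
    rw [h1] at h2
    exact sub_eq_zero.1 h2

end implicit

section branch

variable {ι : Type*} [Fintype ι]

/-- The branches for large `Λ`. -/
theorem exists_branch (e : ι → ℤ) (c : ι → ℂ) {k : ℕ} (hk : 0 < k) (he : ∀ i, e i < k)
    {B δ : ℝ} (hB : 0 ≤ B) (hδ : 0 < δ) :
    ∃ R : ℝ, 1 ≤ R ∧ ∀ (D : ℕ) (Λ : (Fin D → ℝ) → ℂ) (T : ι → (Fin D → ℝ) → ℂ), Good Λ →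
      (∀ i, Good (T i)) → (∀ θ, R ≤ ‖Λ θ‖) → (∀ i θ, ‖T i θ‖ ≤ 1) →
      (∀ j θ, ‖lw Λ j θ‖ ≤ B) → (∀ i j θ, ‖lw (T i) j θ‖ ≤ B) →
      ∃ h : (Fin D → ℝ) → ℂ, Good h ∧
        (∀ θ θ', Λ θ = Λ θ' → (∀ i, T i θ = T i θ') → h θ = h θ') ∧
        (∀ θ, |Real.log ‖h θ‖| ≤ δ) ∧ (∀ j θ, ‖lw h j θ‖ ≤ δ) ∧
        ∀ θ, h θ ^ k + ∑ i, c i * Λ θ ^ (e i - k) * T i θ * h θ ^ (e i) = 1 := by
  classical
  obtain ⟨H, hHc, hH0, hHe⟩ := exists_implicit e hk
  have hH00 : H 0 ≠ 0 := by rw [hH0]; exact one_ne_zero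
  obtain ⟨C, hC⟩ := exists_nice hHc hH00
  have hlog : ∀ᶠ x in 𝓝 (0 : ι → ℂ), |Real.log ‖H x‖| < δ := by
    have c1 : ContinuousAt (fun x => |Real.log ‖H x‖|) 0 :=
      ((hHc.continuousAt.norm).log (norm_ne_zero_iff.2 hH00)).abs
    refine c1.eventually_lt continuousAt_const ?_
    rw [hH0]
    simpa using hδ
  obtain ⟨r, hr, hball⟩ := Metric.eventually_nhds_iff.1 (hHe.and (hC.and hlog))
  set M : ℝ := ∑ i, ‖c i‖ * (((k : ℝ) - e i) * B + B + 1) with hM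
  have hei : ∀ i, (0 : ℝ) < (k : ℝ) - e i := by
    intro i
    have h1 : ((e i : ℤ) : ℝ) < ((k : ℤ) : ℝ) := by exact_mod_cast he i
    have h2 : ((k : ℤ) : ℝ) = (k : ℝ) := by simp
    linarith
  have hMi : ∀ i, 0 ≤ ‖c i‖ * (((k : ℝ) - e i) * B + B + 1) := fun i => by
    have := hei i
    positivity
  have hM0 : 0 ≤ M := Finset.sum_nonneg fun i _ => hMi i
  set R : ℝ := 1 + M / r + |C| * M / δ with hR
  have hR1 : 1 ≤ R := by
    have h1 : 0 ≤ M / r := by positivity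
    have h2 : 0 ≤ |C| * M / δ := by positivity
    linarith
  have hR0 : 0 < R := by linarith
  have hMR : M / R < r := by
    rw [div_lt_iff₀ hR0, hR]
    have h2 : 0 ≤ |C| * M / δ := by positivity
    have h3 : r * (1 + M / r + |C| * M / δ) = r + M + r * (|C| * M / δ) := by
      field_simp
    rw [h3]
    have h4 : 0 ≤ r * (|C| * M / δ) := by positivity
    linarith
  have hCR : |C| * (M / R) ≤ δ := by
    rw [mul_div_assoc', div_le_iff₀ hR0, hR]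
    have h1 : 0 ≤ M / r := by positivity
    have h3 : δ * (1 + M / r + |C| * M / δ) = δ + δ * (M / r) + |C| * M := by
      field_simp
    rw [h3]
    have h4 : 0 ≤ δ * (M / r) := by positivity
    linarith
  refine ⟨R, hR1, fun D Λ T hΛ hT hΛR hT1 hlΛ hlT => ?_⟩
  -- the small parameters
  set x : (Fin D → ℝ) → ι → ℂ := fun θ i => c i * Λ θ ^ (e i - k) * T i θ with hx
  have hg : ∀ i, Good fun θ => Λ θ ^ (e i - k) * T i θ := fun i => (good_zpow hΛ _).mul (hT i)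
  have hxi : ∀ i, (fun θ => x θ i) = fun θ => c i * (Λ θ ^ (e i - k) * T i θ) := fun i => by
    funext θ
    simp only [hx]
    ring
  have hxc : ContDiff ℝ 2 x := by
    refine contDiff_pi.2 fun i => ?_
    rw [hxi]
    exact contDiff_const.mul (hg i).smooth
  have hΛpos : ∀ θ, 0 < ‖Λ θ‖ := fun θ => lt_of_lt_of_le hR0 (hΛR θ)
  have hnΛ : ∀ i θ, ‖Λ θ ^ (e i - k)‖ ≤ 1 / R := by
    intro i θ
    obtain ⟨n, hn⟩ : ∃ n : ℕ, (k : ℤ) - e i = n + 1 := ⟨((k : ℤ) - e i - 1).toNat, by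
      have := he i
      omega⟩
    have h1 : e i - k = -((n + 1 : ℕ) : ℤ) := by
      push_cast
      omega
    rw [h1, zpow_neg, zpow_natCast, norm_inv, norm_pow, ← one_div]
    refine one_div_le_one_div_of_le hR0 ?_
    calc R ≤ R ^ (n + 1) := le_self_pow₀ hR1 (Nat.succ_ne_zero n)
      _ ≤ ‖Λ θ‖ ^ (n + 1) := pow_le_pow_left₀ hR0.le (hΛR θ) _
  have hng : ∀ i θ, ‖Λ θ ^ (e i - k) * T i θ‖ ≤ 1 / R := by
    intro i θ
    rw [norm_mul]
    calc _ ≤ 1 / R * 1 := mul_le_mul (hnΛ i θ) (hT1 i θ) (norm_nonneg _) (by positivity)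
      _ = 1 / R := mul_one _
  have hlg : ∀ i j θ, ‖lw (fun θ => Λ θ ^ (e i - k) * T i θ) j θ‖ ≤
      ((k : ℝ) - e i) * B + B := by
    intro i j θ
    rw [lw_mul (good_zpow hΛ _) (hT i), lw_zpow hΛ]
    refine (norm_add_le _ _).trans (add_le_add ?_ (hlT i j θ))
    rw [norm_mul]
    have h1 : ‖((e i - k : ℤ) : ℂ)‖ = (k : ℝ) - e i := by
      rw [Complex.norm_intCast]
      push_cast
      rw [abs_sub_comm, abs_of_pos (hei i)]
    rw [h1]
    exact mul_le_mul_of_nonneg_left (hlΛ j θ) (hei i).le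
  have hterm : ∀ i, ‖c i‖ * (1 / R) * (((k : ℝ) - e i) * B + B + 1) ≤ M / R := by
    intro i
    have h1 : ‖c i‖ * (((k : ℝ) - e i) * B + B + 1) ≤ M :=
      Finset.single_le_sum (f := fun i => ‖c i‖ * (((k : ℝ) - e i) * B + B + 1))
        (fun i _ => hMi i) (Finset.mem_univ i)
    calc _ = ‖c i‖ * (((k : ℝ) - e i) * B + B + 1) / R := by ring
      _ ≤ M / R := div_le_div_of_nonneg_right h1 hR0.le
  have hMR0 : 0 ≤ M / R := by positivity
  have hxn : ∀ θ, ‖x θ‖ ≤ M / R := by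
    intro θ
    rw [pi_norm_le_iff_of_nonneg hMR0]
    intro i
    rw [congrFun (hxi i) θ, norm_mul]
    refine le_trans ?_ (hterm i)
    have h1 := hei i
    have h2 : (1 : ℝ) ≤ ((k : ℝ) - e i) * B + B + 1 := by
      have : 0 ≤ ((k : ℝ) - e i) * B := by positivity
      linarith
    calc ‖c i‖ * ‖Λ θ ^ (e i - k) * T i θ‖ ≤ ‖c i‖ * (1 / R) :=
          mul_le_mul_of_nonneg_left (hng i θ) (norm_nonneg _)
      _ = ‖c i‖ * (1 / R) * 1 := (mul_one _).symm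
      _ ≤ _ := mul_le_mul_of_nonneg_left h2 (by positivity)
  have hxd : ∀ θ j, ‖fderiv ℝ x θ (Pi.single j 1)‖ ≤ M / R := by
    intro θ j
    have hd : HasFDerivAt x (fderiv ℝ x θ) θ := ((hxc.differentiable (by norm_num)) θ).hasFDerivAt
    rw [pi_norm_le_iff_of_nonneg hMR0]
    intro i
    have h1 := ((ContinuousLinearMap.proj (R := ℝ) (φ := fun _ : ι => ℂ) i).hasFDerivAt).comp θ hd
    have h2 := h1.fderiv
    have h3 : fderiv ℝ x θ (Pi.single j 1) i =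
        fderiv ℝ (fun θ => x θ i) θ (Pi.single j 1) :=
      (DFunLike.congr_fun h2 (Pi.single j 1)).symm
    have h4 : fderiv ℝ (fun θ => x θ i) θ (Pi.single j 1) =
        c i * (lw (fun θ => Λ θ ^ (e i - k) * T i θ) j θ * (Λ θ ^ (e i - k) * T i θ)) := by
      rw [hxi]
      unfold lw
      rw [div_mul_cancel₀ _ ((hg i).ne_zero θ),
        fderiv_const_mul (((hg i).smooth.differentiable (by norm_num)) θ)]
      rfl
    rw [h3, h4, norm_mul, norm_mul]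
    refine le_trans ?_ (hterm i)
    have h1 := hei i
    calc ‖c i‖ * (‖lw (fun θ => Λ θ ^ (e i - k) * T i θ) j θ‖ * ‖Λ θ ^ (e i - k) * T i θ‖)
        ≤ ‖c i‖ * ((((k : ℝ) - e i) * B + B) * (1 / R)) :=
          mul_le_mul_of_nonneg_left (mul_le_mul (hlg i j θ) (hng i θ) (norm_nonneg _)
            (by positivity)) (norm_nonneg _)
      _ = ‖c i‖ * (1 / R) * (((k : ℝ) - e i) * B + B) := by ring
      _ ≤ _ := mul_le_mul_of_nonneg_left (by linarith) (by positivity)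
  have hxr : ∀ θ, dist (x θ) 0 < r := fun θ => by
    rw [dist_zero_right]
    exact (hxn θ).trans_lt hMR
  refine ⟨fun θ => H (x θ), ⟨?_, fun θ => (hball (hxr θ)).2.1.2.1⟩, fun θ θ' h1 h2 => ?_,
    fun θ => (hball (hxr θ)).2.2.le, fun j θ => ?_, fun θ => (hball (hxr θ)).1⟩
  · rw [contDiff_iff_contDiffAt]
    intro θ
    exact (((hball (hxr θ)).2.1.1).restrict_scalars ℝ).comp θ hxc.contDiffAt
  · have h3 : x θ = x θ' := by
      funext i
      simp only [hx, h1, h2]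
    show H (x θ) = H (x θ')
    rw [h3]
  · have hd : HasFDerivAt x (fderiv ℝ x θ) θ := ((hxc.differentiable (by norm_num)) θ).hasFDerivAt
    obtain ⟨-, ⟨h1, h2, -, h3⟩, -⟩ := hball (hxr θ)
    have h4 : HasFDerivAt H ((fderiv ℂ H (x θ)).restrictScalars ℝ) (x θ) :=
      ((h1.differentiableAt (by norm_num)).hasFDerivAt).restrictScalars ℝ
    have h5 := (h4.comp θ hd).fderiv
    have h6 : fderiv ℝ (fun θ => H (x θ)) θ (Pi.single j 1) =
        fderiv ℂ H (x θ) (fderiv ℝ x θ (Pi.single j 1)) :=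
      DFunLike.congr_fun h5 (Pi.single j 1)
    unfold lw
    rw [h6, norm_div]
    have hpos : 0 < ‖H (x θ)‖ := norm_pos_iff.2 h2
    have h7 : ‖fderiv ℂ H (x θ) (fderiv ℝ x θ (Pi.single j 1))‖ ≤
        ‖fderiv ℂ H (x θ)‖ * (M / R) :=
      (ContinuousLinearMap.le_opNorm _ _).trans
        (mul_le_mul_of_nonneg_left (hxd θ j) (norm_nonneg _))
    calc _ ≤ ‖fderiv ℂ H (x θ)‖ * (M / R) / ‖H (x θ)‖ := div_le_div_of_nonneg_right h7 hpos.le
      _ = ‖fderiv ℂ H (x θ)‖ / ‖H (x θ)‖ * (M / R) := by ring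
      _ ≤ |C| * (M / R) := mul_le_mul_of_nonneg_right (h3.trans (le_abs_self C)) hMR0
      _ ≤ δ := hCR

end branch

end Pool.Agent.N65.TL
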