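import Pool.Agent.N65.TL.Unram
set_option autoImplicit false

/-!
Tori over products of circles, covered `k` times, near a vertex of the arrangement.
-/

namespace Pool.Agent.N65.TL

open Filter Topology

open Pool.Agent.TH826.MK

open Pool.Agent.TH826.SX (good_circ lw_circ circ_ne_zero exists_nice)

open Pool.Agent.TH577.UA

section circ

variable {d : ℕ}

/-- the point of the chart with the `k`-fold covered circles -/
noncomputable def yk (k : ℕ) (ρ : ℝ) {D : ℕ} (p : Fin (d + 1) → Fin D) (θ : Fin D → ℝ) :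
    (Fin d → ℂ) × ℂ :=
  (fun l => circ ρ (θ (p l.succ)) ^ k, circ ρ (θ (p 0)) ^ k)

variable {k : ℕ} {ρ : ℝ} {D : ℕ} {p : Fin (d + 1) → Fin D}

theorem contDiff_yk (hρ : 0 < ρ) : ContDiff ℝ 2 (yk k ρ p) :=
  (contDiff_pi.2 fun l : Fin d => (good_pow (good_circ hρ (p l.succ)) k).smooth).prodMk
    (good_pow (good_circ hρ (p 0)) k).smooth

theorem yk_add_single (θ : Fin D → ℝ) (j : Fin D) :
    yk k ρ p (θ + Pi.single j 1) = yk k ρ p θ := by
  have h : ∀ i, circ ρ ((θ + Pi.single j 1 : Fin D → ℝ) (p i)) = circ ρ (θ (p i)) := fun i =>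
    per_circ ρ (p i) θ j
  unfold yk
  simp only [h]

theorem norm_yk_le (hρ : 0 < ρ) (hρ1 : ρ ≤ 1) (hk : 0 < k) (θ : Fin D → ℝ) :
    ‖yk k ρ p θ‖ ≤ ρ := by
  have h : ∀ t, ‖circ ρ t ^ k‖ ≤ ρ := fun t => norm_cq_le hρ hρ1 hk t
  rw [norm_prod_le_iff]
  refine ⟨?_, h _⟩
  rw [pi_norm_le_iff_of_nonneg hρ.le]
  intro l
  exact h _

theorem norm_fderiv_yk (hρ : 0 < ρ) (hρ1 : ρ ≤ 1) (hk : 0 < k) (θ : Fin D → ℝ) (j : Fin D) :
    ‖fderiv ℝ (yk k ρ p) θ (Pi.single j 1)‖ ≤ 2 * Real.pi * k * ρ := by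
  have hd : HasFDerivAt (yk k ρ p) (fderiv ℝ (yk k ρ p) θ) θ :=
    (((contDiff_yk hρ).differentiable (by norm_num)) θ).hasFDerivAt
  have hpi : ‖2 * (Real.pi : ℂ) * Complex.I‖ = 2 * Real.pi := by
    rw [norm_mul, norm_mul, Complex.norm_I, Complex.norm_real, Complex.norm_ofNat, mul_one,
      Real.norm_eq_abs, abs_of_pos Real.pi_pos]
  have hpi0 := Real.pi_pos
  have hpos : 0 ≤ 2 * Real.pi * k * ρ := by positivity
  have key : ∀ i : Fin D, ‖fderiv ℝ (fun θ : Fin D → ℝ => circ ρ (θ i) ^ k) θ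
      (Pi.single j 1)‖ ≤ 2 * Real.pi * k * ρ := by
    intro i
    have h4 : fderiv ℝ (fun θ : Fin D → ℝ => circ ρ (θ i) ^ k) θ (Pi.single j 1) =
        lw (fun θ : Fin D → ℝ => circ ρ (θ i) ^ k) j θ * circ ρ (θ i) ^ k := by
      unfold lw
      rw [div_mul_cancel₀ _ (pow_ne_zero _ (circ_ne_zero hρ _))]
    rw [h4, lw_pow (good_circ hρ i), lw_circ hρ]
    split_ifs
    · rw [norm_mul, norm_mul, hpi, Complex.norm_natCast]
      calc (k : ℝ) * (2 * Real.pi) * ‖circ ρ (θ i) ^ k‖ ≤ (k : ℝ) * (2 * Real.pi) * ρ :=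
            mul_le_mul_of_nonneg_left (norm_cq_le hρ hρ1 hk _) (by positivity)
        _ = 2 * Real.pi * k * ρ := by ring
    · rw [mul_zero, zero_mul, norm_zero]
      exact hpos
  rw [norm_prod_le_iff]
  constructor
  · rw [pi_norm_le_iff_of_nonneg hpos]
    intro l
    have h1 := (((ContinuousLinearMap.proj (R := ℝ) (φ := fun _ : Fin d => ℂ) l).comp
      (ContinuousLinearMap.fst ℝ (Fin d → ℂ) ℂ)).hasFDerivAt).comp θ hd
    have h3 : (fderiv ℝ (yk k ρ p) θ (Pi.single j 1)).1 l =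
        fderiv ℝ (fun θ : Fin D → ℝ => circ ρ (θ (p l.succ)) ^ k) θ (Pi.single j 1) :=
      (DFunLike.congr_fun h1.fderiv (Pi.single j 1)).symm
    rw [h3]
    exact key _
  · have h1 := ((ContinuousLinearMap.snd ℝ (Fin d → ℂ) ℂ).hasFDerivAt).comp θ hd
    have h3 : (fderiv ℝ (yk k ρ p) θ (Pi.single j 1)).2 =
        fderiv ℝ (fun θ : Fin D → ℝ => circ ρ (θ (p 0)) ^ k) θ (Pi.single j 1) :=
      (DFunLike.congr_fun h1.fderiv (Pi.single j 1)).symm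
    rw [h3]
    exact key _

/-- Functions without zeros on small tori. -/
theorem exists_rho (hk : 0 < k) {ι : Type*} [Fintype ι] (φ : ι → (Fin d → ℂ) × ℂ → ℂ)
    (hφ : ∀ e, ContDiffAt ℂ 2 (φ e) 0) (hφ0 : ∀ e, φ e 0 ≠ 0) {P : (Fin d → ℂ) × ℂ → Prop}
    (hP : ∀ᶠ y in 𝓝 (0 : (Fin d → ℂ) × ℂ), P y) {ε : ℝ} (hε : 0 < ε) :
    ∃ C ρ : ℝ, 0 ≤ C ∧ 0 < ρ ∧ ρ ≤ 1 ∧ ∀ (D : ℕ) (p : Fin (d + 1) → Fin D),
      (∀ θ, P (yk k ρ p θ)) ∧ ∀ e, Good (fun θ => φ e (yk k ρ p θ)) ∧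
        ∀ θ, |Real.log ‖φ e (yk k ρ p θ)‖| ≤ C ∧
          ∀ j, ‖lw (fun θ => φ e (yk k ρ p θ)) j θ‖ ≤ ε := by
  classical
  choose C hC using fun e => exists_nice (hφ e) (hφ0 e)
  have hall := (eventually_all.2 fun e => hC e).and hP
  obtain ⟨r, hr, hball⟩ := Metric.eventually_nhds_iff.1 hall
  set C0 : ℝ := ∑ e, |C e| with hC0
  have hC00 : 0 ≤ C0 := Finset.sum_nonneg fun e _ => abs_nonneg _
  have hCle : ∀ e, C e ≤ C0 := fun e =>
    (le_abs_self _).trans (Finset.single_le_sum (f := fun e => |C e|)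
      (fun j _ => abs_nonneg _) (Finset.mem_univ e))
  have hpi := Real.pi_pos
  set M : ℝ := (C0 + 1) * (2 * Real.pi * k) with hM
  have hk' : (0 : ℝ) < k := by exact_mod_cast hk
  have hM0 : 0 < M := by positivity
  set ρ : ℝ := min (min 1 (r / 2)) (ε / M) with hρ
  have hρ0 : 0 < ρ := lt_min (lt_min one_pos (by linarith)) (by positivity)
  have hρ1 : ρ ≤ 1 := (min_le_left _ _).trans (min_le_left _ _)
  have hρr : ρ < r := lt_of_le_of_lt ((min_le_left _ _).trans (min_le_right _ _)) (by linarith)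
  have hρε : M * ρ ≤ ε := by
    have h1 : ρ ≤ ε / M := min_le_right _ _
    rw [le_div_iff₀ hM0] at h1
    linarith
  refine ⟨C0, ρ, hC00, hρ0, hρ1, fun D p => ?_⟩
  have hz : ∀ θ : Fin D → ℝ, dist (yk k ρ p θ) 0 < r := fun θ => by
    rw [dist_zero_right]
    exact (norm_yk_le hρ0 hρ1 hk θ).trans_lt hρr
  refine ⟨fun θ => (hball (hz θ)).2, fun e => ⟨⟨?_, fun θ => ((hball (hz θ)).1 e).2.1⟩,
    fun θ => ⟨((hball (hz θ)).1 e).2.2.1.trans (hCle e), fun j => ?_⟩⟩⟩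
  · rw [contDiff_iff_contDiffAt]
    intro θ
    exact ((((hball (hz θ)).1 e).1).restrict_scalars ℝ).comp θ (contDiff_yk hρ0).contDiffAt
  · have hd : HasFDerivAt (yk k ρ p) (fderiv ℝ (yk k ρ p) θ) θ :=
      (((contDiff_yk hρ0).differentiable (by norm_num)) θ).hasFDerivAt
    obtain ⟨h1, h2, -, h3⟩ := (hball (hz θ)).1 e
    have h4 : HasFDerivAt (φ e) ((fderiv ℂ (φ e) (yk k ρ p θ)).restrictScalars ℝ)
        (yk k ρ p θ) := ((h1.differentiableAt (by norm_num)).hasFDerivAt).restrictScalars ℝ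
    have h5 := (h4.comp θ hd).fderiv
    have h6 : fderiv ℝ (fun θ => φ e (yk k ρ p θ)) θ (Pi.single j 1) =
        fderiv ℂ (φ e) (yk k ρ p θ) (fderiv ℝ (yk k ρ p) θ (Pi.single j 1)) :=
      DFunLike.congr_fun h5 (Pi.single j 1)
    unfold lw
    rw [h6, norm_div]
    have hpos : 0 < ‖φ e (yk k ρ p θ)‖ := norm_pos_iff.2 h2
    have h7 : ‖fderiv ℂ (φ e) (yk k ρ p θ) (fderiv ℝ (yk k ρ p) θ (Pi.single j 1))‖ ≤
        ‖fderiv ℂ (φ e) (yk k ρ p θ)‖ * (2 * Real.pi * k * ρ) :=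
      (ContinuousLinearMap.le_opNorm _ _).trans
        (mul_le_mul_of_nonneg_left (norm_fderiv_yk hρ0 hρ1 hk θ j) (norm_nonneg _))
    calc _ ≤ ‖fderiv ℂ (φ e) (yk k ρ p θ)‖ * (2 * Real.pi * k * ρ) / ‖φ e (yk k ρ p θ)‖ :=
          div_le_div_of_nonneg_right h7 hpos.le
      _ = ‖fderiv ℂ (φ e) (yk k ρ p θ)‖ / ‖φ e (yk k ρ p θ)‖ * (2 * Real.pi * k * ρ) := by ring
      _ ≤ (C0 + 1) * (2 * Real.pi * k * ρ) := mul_le_mul_of_nonneg_right
          (h3.trans ((hCle e).trans (by linarith))) (by positivity)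
      _ = M * ρ := by rw [hM]; ring
      _ ≤ ε := hρε

/-- the product of powers of the circles -/
noncomputable def mk1 (ρ : ℝ) {D : ℕ} (p : Fin (d + 1) → Fin D) (N : Fin (d + 1) → ℕ)
    (θ : Fin D → ℝ) : ℂ := ∏ i, circ ρ (θ (p i)) ^ (N i)

theorem good_mk1 (hρ : 0 < ρ) (N : Fin (d + 1) → ℕ) : Good (mk1 ρ p N) :=
  good_prod Finset.univ fun i => good_pow (good_circ hρ (p i)) _

theorem per_mk1 (N : Fin (d + 1) → ℕ) : Per (mk1 ρ p N) := by
  intro θ j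
  unfold mk1
  refine Finset.prod_congr rfl fun i _ => ?_
  have h := per_circ ρ (p i) θ j
  simp only at h
  rw [h]

theorem lw_mk1 (hρ : 0 < ρ) (N : Fin (d + 1) → ℕ) (j : Fin D) (θ : Fin D → ℝ) :
    lw (mk1 ρ p N) j θ = 2 * Real.pi * Complex.I * ∑ i, if j = p i then (N i : ℂ) else 0 := by
  classical
  have h1 : mk1 ρ p N = fun θ => ∏ i ∈ Finset.univ, circ ρ (θ (p i)) ^ (N i) := rfl
  rw [h1, lw_prod Finset.univ fun i => good_pow (good_circ hρ (p i)) _, Finset.mul_sum]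
  refine Finset.sum_congr rfl fun i _ => ?_
  rw [lw_pow (good_circ hρ (p i)), lw_circ hρ]
  split_ifs
  · ring
  · ring

theorem log_mk1 (hρ : 0 < ρ) (N : Fin (d + 1) → ℕ) (θ : Fin D → ℝ) :
    Real.log ‖mk1 ρ p N θ‖ = (∑ i, (N i : ℝ)) * Real.log ρ := by
  unfold mk1
  rw [norm_prod]
  simp only [norm_pow, norm_circ hρ.le]
  rw [Real.log_prod fun i _ => pow_ne_zero _ hρ.ne', Finset.sum_mul]
  exact Finset.sum_congr rfl fun i _ => Real.log_pow _ _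

theorem mmon_yk (μ : Fin (d + 1) → ℕ) (θ : Fin D → ℝ) :
    mmon μ (yk k ρ p θ) = mk1 ρ p (fun i => k * μ i) θ := by
  unfold mmon yk mk1
  rw [Fin.prod_univ_succ]
  simp only [pow_mul]

theorem mk1_pow (N : Fin (d + 1) → ℕ) (θ : Fin D → ℝ) :
    mk1 ρ p (fun i => k * N i) θ = mk1 ρ p N θ ^ k := by
  unfold mk1
  rw [← Finset.prod_pow]
  exact Finset.prod_congr rfl fun i _ => by
    show circ ρ (θ (p i)) ^ (k * N i) = _
    rw [mul_comm k, pow_mul]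

theorem mmon_prod {ι : Type*} [Fintype ι] (μ : ι → Fin (d + 1) → ℕ) (n : ι → ℕ)
    (y : (Fin d → ℂ) × ℂ) :
    ∏ e, mmon (μ e) y ^ (n e) = mmon (fun j => ∑ e, n e * μ e j) y := by
  unfold mmon
  simp only [mul_pow, ← pow_mul, Finset.prod_mul_distrib, ← Finset.prod_pow]
  congr 1
  · rw [Finset.prod_pow_eq_pow_sum]
    congr 1
    exact Finset.sum_congr rfl fun e _ => mul_comm _ _
  · rw [Finset.prod_comm]
    refine Finset.prod_congr rfl fun l _ => ?_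
    rw [Finset.prod_pow_eq_pow_sum]
    congr 1
    exact Finset.sum_congr rfl fun e _ => mul_comm _ _

end circ

end Pool.Agent.N65.TL
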