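import Pool.Agent.TH826.MK.Torus
set_option autoImplicit false

/-!
The families of fibrations `W(z) = λ g ∏_e L_e ^ (w_e + 1)`: definitions.
-/

namespace Pool.Agent.N65.TL

open Pool.Agent.TH826.MK (KQ symb Unramified Torus)

section laurent

/-- Laurent polynomials in `n` variables: the elements `∑_m w_m z^m`, `m ∈ ℤ^n`. -/
abbrev LP (R : Type*) [CommRing R] (n : ℕ) : Type _ := AddMonoidAlgebra R (Fin n → ℤ)

variable {K : Type*} [Field K] {n : ℕ}

/-- The polynomial is `∑_i ε_i z^(m_i)` with affinely independent exponents `m_0, ..., m_d` and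
roots of unity `ε_i`. -/
def SimplexType (G : LP K n) : Prop :=
  ∃ (d : ℕ) (m : Fin (d + 1) → Fin n → ℤ) (ε : Fin (d + 1) → K), AffineIndependent ℤ m ∧
    (∀ i, ∃ k : ℕ, k ≠ 0 ∧ ε i ^ k = 1) ∧ G = ∑ i, AddMonoidAlgebra.single (m i) (ε i)

/-- The Laurent polynomial has integral coefficients. -/
def Integral (P : LP K n) : Prop := ∀ m, IsIntegral ℤ (P.coeff m)

/-- The Laurent polynomial divides a product of polynomials of simplex type, with a quotient with
integral coefficients. -/
def Tame (W : LP K n) : Prop :=
  ∃ (Q : LP K n) (r : ℕ) (G : Fin r → LP K n), Q ≠ 0 ∧ Integral Q ∧ (∀ j, SimplexType (G j)) ∧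
    W * Q = ∏ j, G j

/-- The origin lies in the interior of the Newton polytope. -/
def Interior (W : LP K n) : Prop :=
  ∀ a : Fin n → ℤ, a ≠ 0 → ∃ m, W.coeff m ≠ 0 ∧ 0 < ∑ i, a i * m i

/-- The units `z_i` of the Laurent polynomial ring. -/
noncomputable def zlau {R : Type*} [CommRing R] {n : ℕ} (i : Fin n) : (LP R n)ˣ where
  val := AddMonoidAlgebra.single (Pi.single i 1) 1
  inv := AddMonoidAlgebra.single (-Pi.single i 1) 1
  val_inv := by
    rw [AddMonoidAlgebra.single_mul_single, add_neg_cancel, one_mul]
    rfl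
  inv_val := by
    rw [AddMonoidAlgebra.single_mul_single, neg_add_cancel, one_mul]
    rfl

end laurent

section ring

variable {K : Type*} [Field K] {s d : ℕ}

/-- The ring of the Laurent polynomials in `z_0, ..., z_s` whose coefficients are polynomials in
`x_0, ..., x_d`. -/
def TRing (K : Type*) [Field K] (s d : ℕ) : Type _ := LP (MvPolynomial (Fin (d + 1)) K) (s + 1)

noncomputable instance (K : Type*) [Field K] (s d : ℕ) : CommRing (TRing K s d) :=
  AddMonoidAlgebra.commRing

/-- The Laurent polynomials with constant coefficients. -/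
noncomputable def tlau (d : ℕ) (W : LP K (s + 1)) : TRing K s d :=
  AddMonoidAlgebra.mapRingHom (Fin (s + 1) → ℤ) MvPolynomial.C W

/-- The polynomials in `x` -/
noncomputable def tpol (s : ℕ) : MvPolynomial (Fin (d + 1)) K →+* TRing K s d :=
  AddMonoidAlgebra.singleZeroRingHom

/-- The units `z_i` -/
noncomputable def tz (K : Type*) [Field K] (d : ℕ) (i : Fin (s + 1)) : (TRing K s d)ˣ := zlau i

/-- The equation `W(z) - Φ(x)`. -/
noncomputable def feqn (W : LP K (s + 1)) (Φ : MvPolynomial (Fin (d + 1)) K) : TRing K s d :=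
  tlau d W - tpol s Φ

/-- The coordinate ring of the hypersurface `W(z) = Φ(x)` in the product of the torus with the
coordinates `z_0, ..., z_s` and the affine space with the coordinates `x_0, ..., x_d`. -/
def FRing (W : LP K (s + 1)) (Φ : MvPolynomial (Fin (d + 1)) K) : Type _ :=
  TRing K s d ⧸ Ideal.span {feqn W Φ}

variable (W : LP K (s + 1)) (Φ : MvPolynomial (Fin (d + 1)) K)

noncomputable instance : CommRing (FRing W Φ) :=
  Ideal.Quotient.commRing (Ideal.span {feqn W Φ})

/-- The restriction of functions to the hypersurface. -/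
noncomputable def fmk : TRing K s d →+* FRing W Φ :=
  Ideal.Quotient.mk (Ideal.span {feqn W Φ})

/-- The polynomial `Φ` as function on the hypersurface. -/
noncomputable def fPh : FRing W Φ := fmk W Φ (tpol s Φ)

/-- The coordinate ring of the open part `Φ ≠ 0` of the hypersurface. -/
def FOpen : Type _ := Localization.Away (fPh W Φ)

noncomputable instance : CommRing (FOpen W Φ) := OreLocalization.instCommRing

/-- The restriction of functions to the open part. -/
noncomputable def ftoO : FRing W Φ →+* FOpen W Φ :=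
  algebraMap (FRing W Φ) (Localization.Away (fPh W Φ))

/-- The restriction of functions to the open part. -/
noncomputable def flau : TRing K s d →+* FOpen W Φ := (ftoO W Φ).comp (fmk W Φ)

/-- The polynomials in `x` as functions on the open part. -/
noncomputable def fx : MvPolynomial (Fin (d + 1)) K →+* FOpen W Φ := (flau W Φ).comp (tpol s)

/-- The constants as functions on the open part. -/
noncomputable def fcst : K →+* FOpen W Φ := (fx W Φ).comp MvPolynomial.C

/-- The units `z_i` of the coordinate ring of the open part. -/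
noncomputable def fz (i : Fin (s + 1)) : (FOpen W Φ)ˣ :=
  Units.map (flau W Φ : TRing K s d →* FOpen W Φ) (tz K d i)

theorem isUnit_fx_Phi : IsUnit (fx W Φ Φ) :=
  IsLocalization.map_units (Localization.Away (fPh W Φ))
    (⟨fPh W Φ, Submonoid.mem_powers _⟩ : Submonoid.powers (fPh W Φ))

variable {Φ} in
/-- The divisors of `Φ` are units on the open part. -/
noncomputable def fdiv {p : MvPolynomial (Fin (d + 1)) K} (h : p ∣ Φ) : (FOpen W Φ)ˣ :=
  (isUnit_of_dvd_unit (map_dvd (fx W Φ) h) (isUnit_fx_Phi W Φ)).unit

end ring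

section fam

/-- The positions of the entries `z_0, ..., z_s` and `u_0, ..., u_d`. -/
def esum (s d : ℕ) : Fin (s + 1) ⊕ Fin (d + 1) ≃ Fin (s + (d + 1) + 1) :=
  finSumFinEquiv.trans (finCongr (by omega))

/-- The data of a family `W(z) = λ g ∏_e L_e ^ (w_e + 1)`, `L_e = ∑_j c_{e,j} x_j - a_e`. -/
structure Fam (K : Type*) [Field K] (s d m : ℕ) where
  /-- the Laurent polynomial -/
  W : LP K (s + 1)
  /-- the polynomial `g` -/
  g : MvPolynomial (Fin (d + 1)) K
  /-- the exponents -/
  w : Fin (m + 1) → ℕ
  /-- the linear parts of the forms -/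
  c : Fin (m + 1) → Fin (d + 1) → K
  /-- the constants of the forms -/
  a : Fin (m + 1) → K

variable {K : Type*} [Field K] {s d m : ℕ} (F : Fam K s d m)

/-- The matrix of the linear parts of the forms `T_0, ..., T_d`. -/
def Fam.mat (T : Fin (d + 1) → Fin (m + 1)) : Matrix (Fin (d + 1)) (Fin (d + 1)) K :=
  Matrix.of fun i j => F.c (T i) j

/-- The common zero of the forms `T_0, ..., T_d`. -/
noncomputable def Fam.vertex (T : Fin (d + 1) → Fin (m + 1)) (j : Fin (d + 1)) : K :=
  ∑ i, (F.mat T)⁻¹ j i * F.a (T i)

/-- The product of all nonzero determinants of `d + 1` of the linear parts. -/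
noncomputable def Fam.Del : K :=
  open Classical in
    ∏ T : Fin (d + 1) → Fin (m + 1), if (F.mat T).det = 0 then 1 else (F.mat T).det

/-- The exponent `(2 m + 3) (deg g + ∑_e (w_e + 1)) + 1`. -/
noncomputable def Fam.Bex : ℕ := (2 * m + 3) * (F.g.totalDegree + ∑ e, (F.w e + 1)) + 1

/-- The conditions on the family. -/
structure Fam.Admissible (F : Fam K s d m) : Prop where
  /-- the origin is an interior point of the Newton polytope of `W` -/
  interior : Interior F.W
  /-- `W` divides a product of polynomials of simplex type -/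
  tame : Tame F.W
  /-- integral coefficients of the forms -/
  int_c : ∀ e j, IsIntegral ℤ (F.c e j)
  /-- integral coefficients of the forms -/
  int_a : ∀ e, IsIntegral ℤ (F.a e)
  /-- no form is a multiple of another one -/
  distinct : ∀ e e', e ≠ e' → ∀ κ : K, ¬ ((∀ j, F.c e j = κ * F.c e' j) ∧ F.a e = κ * F.a e')
  /-- `g` has integral coefficients -/
  g_int : ∀ k, IsIntegral ℤ (F.g.coeff k)
  /-- `g` does not vanish at the vertices -/
  g_vtx : ∀ T : Fin (d + 1) → Fin (m + 1), (F.mat T).det ≠ 0 →
    MvPolynomial.eval (F.vertex T) F.g ≠ 0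

/-- The form `L_e`. -/
noncomputable def Fam.form (e : Fin (m + 1)) : MvPolynomial (Fin (d + 1)) K :=
  ∑ j, MvPolynomial.C (F.c e j) * MvPolynomial.X j - MvPolynomial.C (F.a e)

variable (lam : K)

/-- The polynomial `Φ = λ g ∏_e L_e ^ (w_e + 1)`. -/
noncomputable def Fam.Phi : MvPolynomial (Fin (d + 1)) K :=
  MvPolynomial.C lam * (F.g * ∏ e, F.form e ^ (F.w e + 1))

/-- The coordinate ring of the open part `Φ ≠ 0` of the hypersurface `W(z) = Φ(x)`, `z_i ≠ 0`. -/
def Fam.Op : Type _ := FOpen F.W (F.Phi lam)

noncomputable instance : CommRing (F.Op lam) := instCommRingFOpen F.W (F.Phi lam)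

/-- The constants as functions on the open part. -/
noncomputable def Fam.cst : K →+* F.Op lam := fcst F.W (F.Phi lam)

/-- The units `z_i`. -/
noncomputable def Fam.z (i : Fin (s + 1)) : (F.Op lam)ˣ := fz F.W (F.Phi lam) i

theorem Fam.form_dvd (e : Fin (m + 1)) : F.form e ∣ F.Phi lam :=
  (dvd_pow_self _ (Nat.succ_ne_zero (F.w e))).trans (Dvd.dvd.mul_left (Dvd.dvd.mul_left
    (Finset.dvd_prod_of_mem (fun e => F.form e ^ (F.w e + 1)) (Finset.mem_univ e)) _) _)

/-- The units `L_e`. -/
noncomputable def Fam.L (e : Fin (m + 1)) : (F.Op lam)ˣ := fdiv F.W (F.form_dvd lam e)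

/-- The largest index `h_i` of the forms by which the form `T_i` can be replaced, such that the
linear parts of the forms `T` stay linearly independent. -/
noncomputable def Fam.hi (T : Fin (d + 1) → Fin (m + 1)) (i : Fin (d + 1)) : Fin (m + 1) :=
  open Classical in
    (Finset.univ.filter fun e => (F.mat (Function.update T i e)).det ≠ 0).sup id

/-- The quotient of the determinants of the forms `T` with and without the replacement of `T_i` by
`h_i`, as a unit. -/
noncomputable def Fam.kap (T : Fin (d + 1) → Fin (m + 1)) (i : Fin (d + 1)) : Kˣ :=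
  open Classical in if h : (F.mat (Function.update T i (F.hi T i))).det / (F.mat T).det = 0 then 1
    else Units.mk0 _ h

/-- The units `u_i = κ_i L_{T i} / L_{h i}`. -/
noncomputable def Fam.u (T : Fin (d + 1) → Fin (m + 1)) (i : Fin (d + 1)) : (F.Op lam)ˣ :=
  Units.map (F.cst lam : K →* F.Op lam) (F.kap T i) * (F.L lam (T i) / F.L lam (F.hi T i))

/-- The symbol `{z_0, ..., z_s, u_0, ..., u_d}` of the basis `T`. -/
noncomputable def Fam.sym (T : Fin (d + 1) → Fin (m + 1)) : KQ (F.Op lam) (s + (d + 1) + 1) :=
  symb fun l => Sum.elim (F.z lam) (F.u lam T) ((esum s d).symm l)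

/-- The bases `T_0 < ... < T_d` (the linear parts of the forms `T` are linearly independent) such
that every form of `T` can be replaced by a later form, and every other form through the vertex of
`T` can replace a later form of `T`. -/
def Fam.Nbc (T : Fin (d + 1) → Fin (m + 1)) : Prop :=
  StrictMono T ∧ (F.mat T).det ≠ 0 ∧
  (∀ i, ∃ e, T i < e ∧ (F.mat (Function.update T i e)).det ≠ 0) ∧
  ∀ e, (∀ j, T j ≠ e) → ∑ j, F.c e j * F.vertex T j = F.a e →
    ∃ i, e < T i ∧ (F.mat (Function.update T i e)).det ≠ 0

/-- The set of these bases. -/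
def Fam.Ix : Type := {T : Fin (d + 1) → Fin (m + 1) // F.Nbc T}

noncomputable instance : Fintype F.Ix :=
  @Subtype.fintype _ _ (Classical.decPred _) _

noncomputable instance : DecidableEq F.Ix := Classical.decEq _

/-- The symbols of all bases have unramified images in the Milnor K-theory of all fields `L` with a
homomorphism from the coordinate ring of the open part. -/
def Fam.Unram.{u, v} {K : Type u} [Field K] {s d m : ℕ} (F : Fam K s d m) (lam : K) : Prop :=
  ∀ (L : Type v) [Field L] (f : F.Op lam →+* L) (T : Fin (d + 1) → Fin (m + 1)),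
    (F.mat T).det ≠ 0 → KQ.map _ f (F.sym lam T) ∈ Unramified L _

/-- There are tori `Γ_T` over `σ` such that the determinant of the regulators of the symbols of the
`T'` on the tori `Γ_T` does not vanish. -/
def Fam.Indep (σ : K →+* ℂ) : Prop :=
  ∃ Γ : F.Ix → Torus (F.Op lam) (s + (d + 1)),
    (∀ T θ (x : K), (Γ T).e θ (F.cst lam x) = σ x) ∧
    (Matrix.of fun T T' : F.Ix => (Γ T).reg (F.sym lam T'.1)).det ≠ 0

end fam

end Pool.Agent.N65.TL
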