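import Pool.Agent.N65.TL.Ring
import Pool.Agent.N65.TL.Tor
set_option autoImplicit false

/-!
The symbols `{z_0, ..., z_s, u_0, ..., u_d}` on the fibrations `W(z) = λ g ∏_e L_e ^ (w_e + 1)` are
unramified.
-/

namespace Pool.Agent.N65.TL

open scoped WithZero

open Pool.Agent.TH826.MK

open Pool.Agent.TH826.GA (cm lf al be ku coe_ku)

open Pool.Agent.TH577.UA

section defs

variable {K : Type*} [Field K] {s d m : ℕ}

/-- The polynomial `Φ = λ g ∏_e L_e ^ (w_e + 1)`. -/
noncomputable def fPhi (lam : K) (g : MvPolynomial (Fin (d + 1)) K) (w : Fin (m + 1) → ℕ)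
    (c : Fin (m + 1) → Fin (d + 1) → K) (a : Fin (m + 1) → K) : MvPolynomial (Fin (d + 1)) K :=
  MvPolynomial.C lam * (g * ∏ e, lf c a e ^ (w e + 1))

theorem lf_dvd (lam : K) (g : MvPolynomial (Fin (d + 1)) K) (w : Fin (m + 1) → ℕ)
    (c : Fin (m + 1) → Fin (d + 1) → K) (a : Fin (m + 1) → K) (e : Fin (m + 1)) :
    lf c a e ∣ fPhi lam g w c a := by
  unfold fPhi
  exact (dvd_pow_self _ (Nat.succ_ne_zero (w e))).trans (Dvd.dvd.mul_left (Dvd.dvd.mul_left
    (Finset.dvd_prod_of_mem (fun e => lf c a e ^ (w e + 1)) (Finset.mem_univ e)) _) _)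

variable (W : LP K (s + 1)) (lam : K) (g : MvPolynomial (Fin (d + 1)) K) (w : Fin (m + 1) → ℕ)
    (c : Fin (m + 1) → Fin (d + 1) → K) (a : Fin (m + 1) → K)

/-- The unit `L_e` of the open part. -/
noncomputable def fL (e : Fin (m + 1)) : (FOpen W (fPhi lam g w c a))ˣ :=
  fdiv W (lf_dvd lam g w c a e)

/-- The units `u_i = κ_i L_{T i} / L_{h i}` of the open part. -/
noncomputable def fu (T : Fin (d + 1) → Fin (m + 1)) (i : Fin (d + 1)) :
    (FOpen W (fPhi lam g w c a))ˣ :=
  Units.map (fcst W (fPhi lam g w c a) : K →* FOpen W (fPhi lam g w c a)) (ku (kap c T i)) *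
    (fL W lam g w c a (T i) / fL W lam g w c a (hi c T i))

/-- The entries `z_0, ..., z_s, u_0, ..., u_d` of the symbol of the basis `T`. -/
noncomputable def sent (T : Fin (d + 1) → Fin (m + 1)) (l : Fin (s + (d + 1) + 1)) :
    (FOpen W (fPhi lam g w c a))ˣ :=
  Sum.elim (fz W (fPhi lam g w c a)) (fu W lam g w c a T) ((esum s d).symm l)

end defs

section Unram

variable {K : Type*} [Field K] {s d m : ℕ} {W : LP K (s + 1)} {lam : K}
  {g : MvPolynomial (Fin (d + 1)) K} {w : Fin (m + 1) → ℕ} {c : Fin (m + 1) → Fin (d + 1) → K}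
  {a : Fin (m + 1) → K}

theorem val_poly_le' {L : Type*} [Field L] (F : MvPolynomial (Fin (d + 1)) K →+* L)
    (v : Valuation L ℤᵐ⁰) (hg : ∀ k, IsIntegral ℤ (g.coeff k))
    (hx : ∀ j, v (F (MvPolynomial.X j)) ≤ 1) : v (F g) ≤ 1 := by
  have hc : ∀ x : K, IsIntegral ℤ x → v (F (MvPolynomial.C x)) ≤ 1 := fun x hx =>
    Pool.Agent.TH826.MK.val_le_one_of_integral v
      (map_isIntegral_int (F.comp MvPolynomial.C) hx)
  have e : F g = ∑ k ∈ g.support, F (MvPolynomial.C (g.coeff k)) *
      ∏ j, F (MvPolynomial.X j) ^ k j := by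
    have h1 : F g = MvPolynomial.eval₂ (F.comp MvPolynomial.C) (fun j => F (MvPolynomial.X j)) g := by
      have h2 : F = MvPolynomial.eval₂Hom (F.comp MvPolynomial.C)
          (fun j => F (MvPolynomial.X j)) := by
        refine MvPolynomial.ringHom_ext (fun x => ?_) fun j => ?_
        · simp only [MvPolynomial.coe_eval₂Hom, MvPolynomial.eval₂_C]
          rfl
        · simp only [MvPolynomial.coe_eval₂Hom, MvPolynomial.eval₂_X]
      exact congrArg (fun F : MvPolynomial (Fin (d + 1)) K →+* L => F g) h2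
    rw [h1, MvPolynomial.eval₂_eq']
    rfl
  rw [e]
  refine Valuation.map_sum_le v fun k _ => ?_
  rw [map_mul, map_prod]
  refine mul_le_one' (hc _ (hg k)) (Finset.prod_le_one' fun j _ => ?_)
  rw [map_pow]
  exact pow_le_one' (hx j) _

/-- The symbols are unramified at all discrete valuations. -/
theorem sent_mem_unitPart (hWint : Interior W) (hWt : Tame W) (hlam : IsIntegral ℤ lam)
    (hg : ∀ k, IsIntegral ℤ (g.coeff k)) (hA : UMod c a) {L : Type*} [Field L]
    (f : FOpen W (fPhi lam g w c a) →+* L) (v : Valuation L ℤᵐ⁰)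
    {T : Fin (d + 1) → Fin (m + 1)} (hT : (cm c T).det ≠ 0) :
    symb (fun l => Units.map (f : FOpen W (fPhi lam g w c a) →* L) (sent W lam g w c a T l)) ∈
      unitPart v (s + (d + 1) + 1) := by
  classical
  set F : MvPolynomial (Fin (d + 1)) K →+* L := f.comp (fx W (fPhi lam g w c a)) with hF
  have hc : ∀ x : K, IsIntegral ℤ x → v (F (MvPolynomial.C x)) ≤ 1 := fun x hx =>
    Pool.Agent.TH826.MK.val_le_one_of_integral v (map_isIntegral_int (F.comp MvPolynomial.C) hx)
  have hkap : ∀ k, v (F (MvPolynomial.C (kap c T k))) = 1 := by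
    intro k
    refine le_antisymm (hc _ (hA.kap_int T k)) ?_
    have h1 := hc _ (hA.kap_inv T k)
    have h2 : F (MvPolynomial.C (kap c T k)⁻¹) = (F (MvPolynomial.C (kap c T k)))⁻¹ :=
      map_inv₀ (F.comp MvPolynomial.C) _
    rw [h2, map_inv₀] at h1
    have h0 : F (MvPolynomial.C (kap c T k)) ≠ 0 :=
      (map_ne_zero (F.comp MvPolynomial.C)).2 (kap_ne hT k)
    rwa [inv_le_one₀ (by rw [Valuation.pos_iff]; exact h0)] at h1
  have hlL : ∀ e, F (lf c a e) = ∑ l, F (MvPolynomial.C (al c T e l)) * F (lf c a (T l)) +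
      F (MvPolynomial.C (be c a T e)) := by
    intro e
    conv_lhs => rw [lf_eq (a := a) hT e]
    rw [map_add, map_sum]
    simp only [map_mul]
  have hxL : ∀ j, F (MvPolynomial.X j) = ∑ i, F (MvPolynomial.C ((cm c T)⁻¹ j i)) *
      (F (lf c a (T i)) + F (MvPolynomial.C (a (T i)))) := by
    intro j
    conv_lhs => rw [X_eq (a := a) hT j]
    rw [map_sum]
    simp only [map_mul, map_add]
  -- the entries
  set A : Fin (s + (d + 1) + 1) → Lˣ := fun l =>
    Units.map (f : FOpen W (fPhi lam g w c a) →* L) (sent W lam g w c a T l) with hAdef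
  set z : Fin (s + 1) → Lˣ := fun i => Units.map (f : FOpen W (fPhi lam g w c a) →* L) (fz W (fPhi lam g w c a) i) with hz
  set y : Fin (d + 1) → Lˣ := fun k => Units.map (f : FOpen W (fPhi lam g w c a) →* L)
    (Units.map (fcst W (fPhi lam g w c a) : K →* FOpen W (fPhi lam g w c a)) (ku (kap c T k)) * fL W lam g w c a (T k)) with hy
  set b : Fin (m + 1) → Lˣ := fun e => Units.map (f : FOpen W (fPhi lam g w c a) →* L) (fL W lam g w c a e)
    with hb
  have hbv : ∀ e, (b e : L) = F (lf c a e) := fun e => rfl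
  have hyv : ∀ k, (y k : L) = F (MvPolynomial.C (kap c T k)) * F (lf c a (T k)) := by
    intro k
    rw [hy]
    simp only [map_mul, Units.val_mul]
    congr 1
    show f (fcst W (fPhi lam g w c a) (ku (kap c T k) : K)) = _
    rw [coe_ku (kap_ne hT k)]
    rfl
  have hvy : ∀ k, v (y k : L) = v (F (lf c a (T k))) := by
    intro k
    rw [hyv, map_mul, hkap, one_mul]
  have hAz : ∀ i, A (esum s d (Sum.inl i)) = z i := by
    intro i
    simp only [hAdef]
    unfold sent
    rw [Equiv.symm_apply_apply, Sum.elim_inl]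
  have hAy : ∀ k, A (esum s d (Sum.inr k)) = y k / b (hi c T k) := by
    intro k
    simp only [hAdef]
    unfold sent
    rw [Equiv.symm_apply_apply, Sum.elim_inr]
    unfold fu
    rw [hy, hb]
    simp only [map_mul, map_div]
    rw [mul_div_assoc]
  change symb A ∈ unitPart v (s + (d + 1) + 1)
  by_cases hB : ∃ k, 1 < v (F (lf c a (T k)))
  · -- a pole
    obtain ⟨k1, hk1⟩ := hB
    obtain ⟨k0, hk0, hmax⟩ := Finset.exists_max_image
      (Finset.univ.filter fun k => 1 < v (F (lf c a (T k)))) (fun k => hi c T k)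
      ⟨k1, Finset.mem_filter.2 ⟨Finset.mem_univ _, hk1⟩⟩
    have hk0v : 1 < v (F (lf c a (T k0))) := (Finset.mem_filter.1 hk0).2
    set J : Finset (Fin (d + 1)) := Finset.univ.filter fun k => hi c T k = hi c T k0 with hJ
    set emb : Fin (d + 1) ↪ Fin (s + (d + 1) + 1) :=
      ⟨fun k => esum s d (Sum.inr k), fun k l h =>
        Sum.inr_injective ((esum s d).injective h)⟩ with hemb
    set y' : Fin (s + (d + 1) + 1) → Lˣ := fun l =>
      Sum.elim (fun _ => (1 : Lˣ)) y ((esum s d).symm l) with hy'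
    have hy'e : ∀ k, y' (emb k) = y k := by
      intro k
      show Sum.elim (fun _ => (1 : Lˣ)) y ((esum s d).symm (esum s d (Sum.inr k))) = _
      rw [Equiv.symm_apply_apply, Sum.elim_inr]
    refine mem_unitPart_of_block v A (J.map emb) y' (b (hi c T k0)) (fun l hl => ?_) ?_
      (l := emb k0) (Finset.mem_map_of_mem _ (Finset.mem_filter.2 ⟨Finset.mem_univ _, rfl⟩))
      (by rw [hy'e, hvy]; exact hk0v)
    · obtain ⟨k, hk, rfl⟩ := Finset.mem_map.1 hl
      rw [hy'e, ← (Finset.mem_filter.1 hk).2]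
      exact hAy k
    · rw [Finset.sum_map]
      simp only [hy'e]
      have e1 : (b (hi c T k0) : L) - ∑ k ∈ J, (y k : L) =
          ∑ k ∈ Jᶜ, F (MvPolynomial.C (al c T (hi c T k0) k)) * F (lf c a (T k)) +
            F (MvPolynomial.C (be c a T (hi c T k0))) := by
        rw [hbv, hlL, ← Finset.sum_add_sum_compl J]
        have e2 : ∀ k ∈ J, (y k : L) = F (MvPolynomial.C (al c T (hi c T k0) k)) *
            F (lf c a (T k)) := by
          intro k hk
          rw [hyv, kap_eq hT, (Finset.mem_filter.1 hk).2]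
        rw [Finset.sum_congr rfl e2]
        ring
      rw [e1]
      refine (v.map_add _ _).trans (max_le ?_ (hc _ (hA.be_int T _)))
      refine Valuation.map_sum_le v fun k hk => ?_
      by_cases hal : al c T (hi c T k0) k = 0
      · rw [hal, map_zero, map_zero, zero_mul, map_zero]
        exact zero_le_one
      · have h1 : hi c T k0 ≤ hi c T k := le_hi_of_al hT hal
        have h2 : hi c T k ≠ hi c T k0 := fun h =>
          (Finset.mem_compl.1 hk) (Finset.mem_filter.2 ⟨Finset.mem_univ _, h⟩)
        have h3 : ¬ 1 < v (F (lf c a (T k))) := fun h =>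
          absurd (hmax k (Finset.mem_filter.2 ⟨Finset.mem_univ _, h⟩))
            (not_le.2 (lt_of_le_of_ne h1 h2.symm))
        rw [map_mul]
        exact mul_le_one' (hc _ (hA.al_int T _ _)) (not_lt.1 h3)
  · push Not at hB
    have hle : ∀ e, v (F (lf c a e)) ≤ 1 := by
      intro e
      rw [hlL e]
      refine (v.map_add _ _).trans (max_le ?_ (hc _ (hA.be_int T _)))
      refine Valuation.map_sum_le v fun k _ => ?_
      rw [map_mul]
      exact mul_le_one' (hc _ (hA.al_int T _ _)) (hB k)
    have hx : ∀ j, v (F (MvPolynomial.X j)) ≤ 1 := by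
      intro j
      rw [hxL j]
      refine Valuation.map_sum_le v fun i _ => ?_
      rw [map_mul]
      refine mul_le_one' (hc _ (hA.adj_int T _ _)) ?_
      exact (v.map_add _ _).trans (max_le (hle _) (hc _ (hA.int_a _)))
    have hgv := val_poly_le' F v hg hx
    have hFP : v (F (fPhi lam g w c a)) = v (F (MvPolynomial.C lam)) * (v (F g) *
        ∏ e, v (F (lf c a e)) ^ (w e + 1)) := by
      unfold fPhi
      simp only [map_mul, map_prod, map_pow]
    have hprodle : ∏ e, v (F (lf c a e)) ^ (w e + 1) ≤ 1 :=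
      Finset.prod_le_one' fun e _ => pow_le_one' (hle e) _
    have hP1 : v (F (fPhi lam g w c a)) ≤ 1 := by
      rw [hFP]
      exact mul_le_one' (hc _ hlam) (mul_le_one' hgv hprodle)
    have heqn : lev (f.comp (fcst W (fPhi lam g w c a))) z W = F (fPhi lam g w c a) := flau_eq W (fPhi lam g w c a) f
    by_cases hsmall : ∃ m0, W.coeff m0 ≠ 0 ∧ v (F (fPhi lam g w c a)) < v ((mon z m0 : Lˣ) : L)
    · obtain ⟨m0, hm0, hlt⟩ := hsmall
      have hzA : (fun j => A (esum s d (Sum.inl j))) = z := funext hAz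
      refine mem_unitPart_of_tame (f.comp (fcst W (fPhi lam g w c a))) v A
        (p := fun i => esum s d (Sum.inl i)) (fun i j h =>
          Sum.inl_injective ((esum s d).injective h)) hWt hm0 ?_
      rw [hzA, heqn]
      exact hlt
    · push Not at hsmall
      -- all `z_i` are units
      choose k hk using fun j => exists_ord v (z j)
      have hvm : ∀ m : Fin (s + 1) → ℤ, v ((mon z m : Lˣ) : L) =
          WithZero.exp (∑ j, k j * m j) := by
        intro m
        unfold mon
        rw [Units.coe_prod, map_prod]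
        have h2 : ∀ t : Finset (Fin (s + 1)), ∏ j ∈ t, v ((z j ^ m j : Lˣ) : L) =
            WithZero.exp (∑ j ∈ t, k j * m j) := by
          intro t
          induction t using Finset.induction_on with
          | empty => simp
          | insert j t hj ih =>
            rw [Finset.prod_insert hj, Finset.sum_insert hj, WithZero.exp_add, ih,
              Units.val_zpow_eq_zpow_val, map_zpow₀, hk, ← WithZero.exp_zsmul, smul_eq_mul,
              mul_comm (m j)]
        exact h2 Finset.univ
      have hk0 : k = 0 := by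
        by_contra hne
        obtain ⟨m0, hm0, hpos⟩ := hWint k hne
        have h1 := (hsmall m0 hm0).trans hP1
        rw [hvm, ← WithZero.exp_zero, WithZero.exp_le_exp] at h1
        omega
      have hz1 : ∀ i, v (z i : L) = 1 := by
        intro i
        rw [hk i, hk0, Pi.zero_apply, WithZero.exp_zero]
      obtain ⟨m0, hm0, -⟩ := hWint (fun _ => 1) (fun h => by
        have := congrFun h 0
        simp at this)
      have hP2 : v (F (fPhi lam g w c a)) = 1 := by
        refine le_antisymm hP1 ?_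
        have h1 := hsmall m0 hm0
        rw [hvm, hk0] at h1
        simpa using h1
      have hone := hFP.symm.trans hP2
      have hL1 : ∀ e, v (F (lf c a e)) = 1 := by
        intro e
        refine le_antisymm (hle e) ?_
        rw [← hone, ← Finset.mul_prod_erase _ _ (Finset.mem_univ e)]
        have h1 : ∏ x ∈ Finset.univ.erase e, v (F (lf c a x)) ^ (w x + 1) ≤ 1 :=
          Finset.prod_le_one' fun j _ => pow_le_one' (hle j) _
        have h2 : v (F (lf c a e)) ^ (w e + 1) ≤ v (F (lf c a e)) := by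
          rw [pow_succ]
          exact mul_le_of_le_one_left' (pow_le_one' (hle e) _)
        calc v (F (MvPolynomial.C lam)) * (v (F g) * (v (F (lf c a e)) ^ (w e + 1) *
              ∏ x ∈ Finset.univ.erase e, v (F (lf c a x)) ^ (w x + 1)))
            ≤ 1 * (1 * (v (F (lf c a e)) * 1)) :=
              mul_le_mul' (hc _ hlam) (mul_le_mul' hgv (mul_le_mul' h2 h1))
          _ = v (F (lf c a e)) := by rw [one_mul, one_mul, mul_one]
      refine Submodule.subset_span ⟨A, fun l => ?_, rfl⟩
      obtain ⟨r, rfl⟩ := (esum s d).surjective l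
      rcases r with i | k
      · rw [hAz]
        exact hz1 i
      · rw [hAy, Units.val_div_eq_div_val, map_div₀, hvy, hbv, hL1, hL1, div_one]

theorem sent_mem_unramified (hWint : Interior W) (hWt : Tame W) (hlam : IsIntegral ℤ lam)
    (hg : ∀ k, IsIntegral ℤ (g.coeff k)) (hA : UMod c a) {L : Type*} [Field L]
    (f : FOpen W (fPhi lam g w c a) →+* L) {T : Fin (d + 1) → Fin (m + 1)}
    (hT : (cm c T).det ≠ 0) :
    KQ.map (s + (d + 1) + 1) f (symb (sent W lam g w c a T)) ∈
      Unramified L (s + (d + 1) + 1) := by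
  rw [KQ.map_symb]
  unfold Unramified
  simp only [Submodule.mem_iInf]
  intro v _
  exact sent_mem_unitPart hWint hWt hlam hg hA f v hT

end Unram

end Pool.Agent.N65.TL
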