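import Pool.Agent.N65.TL.Fib
import Pool.Agent.N65.TU.Fib
set_option autoImplicit false

/-!
The families of fibrations `W(z) = λ g ∏_e L_e ^ (w_e + 1)`: the theorems.
-/

namespace Pool.Agent.N65.TL

open Pool.Agent.TH826.MK (KQ symb Unramified Torus)

variable {K : Type*} [Field K] {s d m : ℕ} {F : Fam K s d m} {lam : K}

theorem Fam.unram {mu : K} (hF : F.Admissible) (hmu : IsIntegral ℤ mu)
    (hlam : lam = mu * F.Del ^ F.Bex) : F.Unram lam :=
  fun _ _ f _ hdet => TU.sent_mem_unramified (g := F.g) (w := F.w) (c := F.c) (a := F.a)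
    hF.interior hF.tame hlam hmu hF.g_int hF.int_c hF.int_a f hdet

theorem Fam.exists_indep (σ : K →+* ℂ) (hF : F.Admissible) :
    ∃ C : ℝ, ∀ lam : K, C ≤ ‖σ lam‖ → F.Indep lam σ := by
  obtain ⟨C, -, h⟩ := exists_toriF (g := F.g) (w := F.w) (c := F.c) (a := F.a) σ hF.interior
    hF.distinct hF.g_vtx
  refine ⟨C, fun lam hl => ?_⟩
  obtain ⟨Γ, h1, h2⟩ := h lam hl
  refine ⟨Γ, h1, ?_⟩
  intro h0
  apply h2
  rw [← h0]
  exact congrArg _ rfl

end Pool.Agent.N65.TL
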